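import Pool.Agent.Q90.HG.Stm

set_option autoImplicit false

/-!
Project HG: elementary facts on the step operator `T`.
-/

namespace Pool.Agent.Q90.HG

variable {V I : Type} [Fintype I] {S : Sys V I} {p : I → ℝ}

/-- `T` as a linear map. -/
noncomputable def TL (S : Sys V I) (p : I → ℝ) : (Set V → ℝ) →ₗ[ℝ] (Set V → ℝ) where
  toFun := T S p
  map_add' F G := by
    funext A
    simp only [T, Pi.add_apply]
    rw [mul_add, add_add_add_comm, ← Finset.sum_add_distrib]
    congr 1
    refine Finset.sum_congr rfl fun τ _ => ?_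
    ring
  map_smul' c F := by
    funext A
    simp only [T, Pi.smul_apply, smul_eq_mul, RingHom.id_apply]
    rw [mul_add, Finset.mul_sum]
    congr 1
    · ring
    · refine Finset.sum_congr rfl fun τ _ => ?_
      ring

theorem TL_apply (F : Set V → ℝ) : TL S p F = T S p F := rfl

theorem iter_eq (n : ℕ) (F : Set V → ℝ) : (T S p)^[n] F = ((TL S p) ^ n) F := by
  induction n generalizing F with
  | zero => simp
  | succ n ih => rw [Function.iterate_succ, Function.comp, ih, pow_succ]; rfl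

theorem iter_add (n : ℕ) (F G : Set V → ℝ) (A : Set V) :
    ((T S p)^[n] (fun B => F B + G B)) A = ((T S p)^[n] F) A + ((T S p)^[n] G) A := by
  have h : (fun B => F B + G B) = F + G := rfl
  rw [h, iter_eq, iter_eq, iter_eq, map_add]; rfl

theorem iter_sub (n : ℕ) (F G : Set V → ℝ) (A : Set V) :
    ((T S p)^[n] (fun B => F B - G B)) A = ((T S p)^[n] F) A - ((T S p)^[n] G) A := by
  have h : (fun B => F B - G B) = F - G := rfl
  rw [h, iter_eq, iter_eq, iter_eq, map_sub]; rfl

theorem iter_mul (n : ℕ) (c : ℝ) (F : Set V → ℝ) (A : Set V) :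
    ((T S p)^[n] (fun B => c * F B)) A = c * ((T S p)^[n] F) A := by
  have h : (fun B => c * F B) = c • F := rfl
  rw [h, iter_eq, iter_eq, map_smul]; rfl

theorem iter_sum {α : Type} (s : Finset α) (n : ℕ) (F : α → Set V → ℝ) (A : Set V) :
    ((T S p)^[n] (fun B => ∑ a ∈ s, F a B)) A = ∑ a ∈ s, ((T S p)^[n] (F a)) A := by
  have h : (fun B => ∑ a ∈ s, F a B) = ∑ a ∈ s, F a := by
    funext B; simp
  rw [h, iter_eq, map_sum, Finset.sum_apply]
  exact Finset.sum_congr rfl fun a _ => by rw [iter_eq]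

theorem T_const (c : ℝ) (A : Set V) : T S p (fun _ => c) A = c := by
  have h : ∑ τ, p τ / 2 * (c + c) = (∑ τ, p τ) * c := by
    rw [Finset.sum_mul]; exact Finset.sum_congr rfl fun τ _ => by ring
  simp only [T]
  rw [h]; ring

theorem iter_const (n : ℕ) (c : ℝ) : (T S p)^[n] (fun _ => c) = fun _ => c := by
  induction n with
  | zero => rfl
  | succ n ih =>
    rw [Function.iterate_succ, Function.comp]
    have h : T S p (fun _ => c) = fun _ => c := by funext A; exact T_const c A
    rw [h, ih]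

theorem T_mono_on (hp : Pr p) {C : Set (Set V)} (hC : Cl S C) {F G : Set V → ℝ}
    (h : ∀ A ∈ C, F A ≤ G A) {A : Set V} (hA : A ∈ C) : T S p F A ≤ T S p G A := by
  simp only [T]
  have h0 : 0 ≤ 1 - ∑ τ, p τ := by linarith [hp.2]
  refine add_le_add (mul_le_mul_of_nonneg_left (h A hA) h0) (Finset.sum_le_sum fun τ _ => ?_)
  have h1 := hC A hA τ
  exact mul_le_mul_of_nonneg_left (add_le_add (h _ h1.1) (h _ h1.2))
    (by linarith [hp.1 τ])

theorem iter_mono_on (hp : Pr p) {C : Set (Set V)} (hC : Cl S C) {F G : Set V → ℝ}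
    (h : ∀ A ∈ C, F A ≤ G A) (n : ℕ) : ∀ A ∈ C, ((T S p)^[n] F) A ≤ ((T S p)^[n] G) A := by
  induction n generalizing F G with
  | zero => exact h
  | succ n ih =>
    intro A hA
    rw [Function.iterate_succ, Function.comp, Function.comp]
    exact ih (fun B hB => T_mono_on hp hC h hB) A hA

omit [Fintype I] in
theorem cl_univ : Cl S (Set.univ) := fun _ _ _ => ⟨trivial, trivial⟩

theorem iter_mono (hp : Pr p) {F G : Set V → ℝ} (h : ∀ A, F A ≤ G A) (n : ℕ) (A : Set V) :
    ((T S p)^[n] F) A ≤ ((T S p)^[n] G) A :=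
  iter_mono_on hp cl_univ (fun A _ => h A) n A trivial

theorem iter_nonneg (hp : Pr p) {F : Set V → ℝ} (h : ∀ A, 0 ≤ F A) (n : ℕ) (A : Set V) :
    0 ≤ ((T S p)^[n] F) A := by
  have h1 := iter_mono (S := S) hp (F := fun _ => (0 : ℝ)) (G := F) h n A
  rw [iter_const] at h1
  exact h1

theorem iter_le_const (hp : Pr p) {F : Set V → ℝ} {c : ℝ} (h : ∀ A, F A ≤ c) (n : ℕ)
    (A : Set V) : ((T S p)^[n] F) A ≤ c := by
  have h1 := iter_mono (S := S) hp (F := F) (G := fun _ => c) h n A
  rw [iter_const] at h1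
  exact h1

/-- Jensen for the square. -/
theorem iter_sq (hp : Pr p) (F : Set V → ℝ) (n : ℕ) (A : Set V) :
    ((T S p)^[n] F) A ^ 2 ≤ ((T S p)^[n] (fun B => F B ^ 2)) A := by
  set a := ((T S p)^[n] F) A with ha
  have h1 : ∀ B, 0 ≤ (F B ^ 2 - (2 * a) * F B) + a ^ 2 := fun B => by nlinarith [sq_nonneg (F B - a)]
  have h2 := iter_nonneg (S := S) hp h1 n A
  rw [iter_add, iter_sub, iter_mul, iter_const, ← ha] at h2
  nlinarith

/-- An additional iterate in front. -/
theorem iter_succ' (n : ℕ) (F : Set V → ℝ) (A : Set V) :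
    ((T S p)^[n + 1] F) A = T S p ((T S p)^[n] F) A := by
  rw [Function.iterate_succ']; rfl

theorem iter_comp (m n : ℕ) (F : Set V → ℝ) :
    (T S p)^[m] ((T S p)^[n] F) = (T S p)^[m + n] F := by
  rw [Function.iterate_add]; rfl

theorem mem_nonneg (x : V) (A : Set V) : 0 ≤ mem x A := by
  unfold mem; split_ifs <;> norm_num

theorem mem_le_one (x : V) (A : Set V) : mem x A ≤ 1 := by
  unfold mem; split_ifs <;> norm_num

omit [Fintype I] in
theorem vi_nonneg (τ : I) (x : V) (A : Set V) : 0 ≤ vi S τ x A := by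
  unfold vi; split_ifs <;> norm_num

omit [Fintype I] in
theorem vi_le_one (τ : I) (x : V) (A : Set V) : vi S τ x A ≤ 1 := by
  unfold vi; split_ifs <;> norm_num

end Pool.Agent.Q90.HG
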