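import Pool.Agent.Q90.HG.Bas

set_option autoImplicit false

/-!
Project HG: transport of a split through one step.
-/

namespace Pool.Agent.Q90.HG

theorem sqrt_pair {m M X Y : ℝ} (hm : 0 ≤ m) (hX : m ≤ X) (hY : m ≤ Y) (hs : m + M = X + Y) :
    Real.sqrt m + Real.sqrt M ≤ Real.sqrt X + Real.sqrt Y := by
  have hX0 : 0 ≤ X := hm.trans hX
  have hY0 : 0 ≤ Y := hm.trans hY
  have hM0 : 0 ≤ M := by linarith
  have h1 : m * M ≤ X * Y := by
    have : M = X + Y - m := by linarith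
    subst this
    nlinarith [mul_nonneg (sub_nonneg.2 hX) (sub_nonneg.2 hY)]
  have h2 : Real.sqrt m * Real.sqrt M ≤ Real.sqrt X * Real.sqrt Y := by
    rw [← Real.sqrt_mul hm, ← Real.sqrt_mul hX0]
    exact Real.sqrt_le_sqrt h1
  have h3 : (Real.sqrt m + Real.sqrt M) ^ 2 ≤ (Real.sqrt X + Real.sqrt Y) ^ 2 := by
    nlinarith [Real.sq_sqrt hm, Real.sq_sqrt hM0, Real.sq_sqrt hX0, Real.sq_sqrt hY0]
  exact le_of_sq_le_sq h3 (by positivity)
where
  le_of_sq_le_sq {a b : ℝ} (h : a ^ 2 ≤ b ^ 2) (hb : 0 ≤ b) : a ≤ b := by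
    nlinarith [sq_nonneg (a - b), abs_le_of_sq_le_sq' h hb]

theorem sqrt_minmax {I : Type} [Fintype I] (c a b : I → ℝ) (hc : ∀ ρ, 0 ≤ c ρ)
    (ha : ∀ ρ, 0 ≤ a ρ) (hb : ∀ ρ, 0 ≤ b ρ) :
    Real.sqrt (∑ ρ, c ρ * min (a ρ) (b ρ) ^ 2) + Real.sqrt (∑ ρ, c ρ * max (a ρ) (b ρ) ^ 2) ≤
      Real.sqrt (∑ ρ, c ρ * a ρ ^ 2) + Real.sqrt (∑ ρ, c ρ * b ρ ^ 2) := by
  refine sqrt_pair (Finset.sum_nonneg fun ρ _ => mul_nonneg (hc ρ) (sq_nonneg _)) ?_ ?_ ?_
  · refine Finset.sum_le_sum fun ρ _ => mul_le_mul_of_nonneg_left ?_ (hc ρ)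
    exact pow_le_pow_left₀ (le_min (ha ρ) (hb ρ)) (min_le_left _ _) 2
  · refine Finset.sum_le_sum fun ρ _ => mul_le_mul_of_nonneg_left ?_ (hc ρ)
    exact pow_le_pow_left₀ (le_min (ha ρ) (hb ρ)) (min_le_right _ _) 2
  · rw [← Finset.sum_add_distrib, ← Finset.sum_add_distrib]
    refine Finset.sum_congr rfl fun ρ _ => ?_
    rcases le_total (a ρ) (b ρ) with h | h
    · rw [min_eq_left h, max_eq_right h]
    · rw [min_eq_right h, max_eq_left h]; ring

variable {V I : Type} [Fintype V] [Fintype I] {S : Sys V I}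

theorem Phi_le {c : I → ℝ} {A : Set V} {v : I → V → ℝ} (hv : Spl S A v) :
    Phi S c A ≤ cost c v := by
  refine csInf_le ⟨0, ?_⟩ ⟨v, hv, rfl⟩
  rintro r ⟨v, -, rfl⟩
  exact Finset.sum_nonneg fun x _ => Real.sqrt_nonneg _

open Classical in
/-- Share at the upper element of a pair after an upward step. -/
noncomputable def ush (S : Sys V I) (A : Set V) (a1 a2 : I → V → ℝ) (τ ρ : I) (x : V) : ℝ :=
  if S.act τ ((S.π τ).symm x) then
    (if (S.π τ).symm x ∈ A then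
      (if x ∈ A then min (a2 ρ ((S.π τ).symm x)) (a1 ρ x) else a2 ρ ((S.π τ).symm x))
     else (if x ∈ A then a1 ρ x else max (a2 ρ ((S.π τ).symm x)) (a1 ρ x)))
  else a1 ρ x

open Classical in
/-- Share at the lower element of a pair after a downward step. -/
noncomputable def esh (S : Sys V I) (A : Set V) (a1 a2 : I → V → ℝ) (τ ρ : I) (w : V) : ℝ :=
  if S.act τ w then
    (if w ∈ A then (if S.π τ w ∈ A then max (a2 ρ w) (a1 ρ (S.π τ w)) else a1 ρ (S.π τ w))
     else (if S.π τ w ∈ A then a2 ρ w else min (a2 ρ w) (a1 ρ (S.π τ w))))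
  else a2 ρ w

theorem cost_split (c : I → ℝ) (hc : ∀ ρ, 0 ≤ c ρ) (A : Set V) (a1 a2 : I → V → ℝ)
    (h1 : ∀ ρ x, 0 ≤ a1 ρ x) (h2 : ∀ ρ x, 0 ≤ a2 ρ x) (τ : I) :
    cost c (ush S A a1 a2 τ) + cost c (esh S A a1 a2 τ) ≤ cost c a1 + cost c a2 := by
  unfold cost
  rw [← Equiv.sum_comp (S.π τ) (fun x => Real.sqrt (∑ ρ, c ρ * ush S A a1 a2 τ ρ x ^ 2)),
    ← Equiv.sum_comp (S.π τ) (fun x => Real.sqrt (∑ ρ, c ρ * a1 ρ x ^ 2)),
    ← Finset.sum_add_distrib, ← Finset.sum_add_distrib]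
  refine Finset.sum_le_sum fun w _ => ?_
  have hmm := sqrt_minmax c (fun ρ => a2 ρ w) (fun ρ => a1 ρ (S.π τ w)) hc (fun ρ => h2 ρ w)
    (fun ρ => h1 ρ (S.π τ w))
  have e0 : (S.π τ).symm (S.π τ w) = w := Equiv.symm_apply_apply _ _
  unfold ush esh
  by_cases hact : S.act τ w
  · have hact' : S.act τ ((S.π τ).symm (S.π τ w)) := by rw [e0]; exact hact
    by_cases hw : w ∈ A
    · have hw' : (S.π τ).symm (S.π τ w) ∈ A := by rw [e0]; exact hw
      by_cases hx : S.π τ w ∈ A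
      · simp only [hact, hw, hx, hact', hw', if_true, e0]
        linarith
      · simp only [hact, hw, hx, hact', hw', if_true, if_false, e0]
        linarith
    · have hw' : (S.π τ).symm (S.π τ w) ∉ A := by rw [e0]; exact hw
      by_cases hx : S.π τ w ∈ A
      · simp only [hact, hw, hx, hact', hw', if_true, if_false, e0]
        linarith
      · simp only [hact, hw, hx, hact', hw', if_true, if_false, e0]
        linarith
  · have hact' : ¬ S.act τ ((S.π τ).symm (S.π τ w)) := by rw [e0]; exact hact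
    simp only [hact, hact', if_false]
    linarith

theorem ush_nonneg {A : Set V} {a1 a2 : I → V → ℝ} (h1 : ∀ ρ x, 0 ≤ a1 ρ x)
    (h2 : ∀ ρ x, 0 ≤ a2 ρ x) (τ ρ : I) (x : V) : 0 ≤ ush S A a1 a2 τ ρ x := by
  unfold ush
  split_ifs
  · exact le_min (h2 _ _) (h1 _ _)
  · exact h2 _ _
  · exact h1 _ _
  · exact (h1 _ _).trans (le_max_right _ _)
  · exact h1 _ _

theorem esh_nonneg {A : Set V} {a1 a2 : I → V → ℝ} (h1 : ∀ ρ x, 0 ≤ a1 ρ x)
    (h2 : ∀ ρ x, 0 ≤ a2 ρ x) (τ ρ : I) (x : V) : 0 ≤ esh S A a1 a2 τ ρ x := by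
  unfold esh
  split_ifs
  · exact (h1 _ _).trans (le_max_right _ _)
  · exact h1 _ _
  · exact h2 _ _
  · exact le_min (h2 _ _) (h1 _ _)
  · exact h2 _ _

open Classical in
theorem t_cov : S_cov := by
  intro V I _ _ S c hc A v hv τ
  set a1 : I → V → ℝ := fun ρ x => if K1 S A τ ρ (bs S A ρ x) then 0 else v ρ x with ha1
  set a2 : I → V → ℝ := fun ρ x => if K2 S A τ ρ (bs S A ρ x) then 0 else v ρ x with ha2
  have h1 : ∀ ρ x, 0 ≤ a1 ρ x := by
    intro ρ x; simp only [ha1]; split_ifs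
    · exact le_rfl
    · exact hv.1 ρ x
  have h2 : ∀ ρ x, 0 ≤ a2 ρ x := by
    intro ρ x; simp only [ha2]; split_ifs
    · exact le_rfl
    · exact hv.1 ρ x
  -- covering properties
  have c1 : ∀ ρ x, Vi S A ρ x → ¬ K1 S A τ ρ x → 1 ≤ a1 ρ x + a1 ρ (S.π ρ x) := by
    intro ρ x hx hK
    have e1 : bs S A ρ x = x := by simp [bs, hx.2.1]
    have e2 : bs S A ρ (S.π ρ x) = x := by simp [bs, hx.2.2]
    simp only [ha1, e1, e2, hK, if_false]
    exact hv.2 ρ x hx
  have c2 : ∀ ρ x, Vi S A ρ x → ¬ K2 S A τ ρ x → 1 ≤ a2 ρ x + a2 ρ (S.π ρ x) := by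
    intro ρ x hx hK
    have e1 : bs S A ρ x = x := by simp [bs, hx.2.1]
    have e2 : bs S A ρ (S.π ρ x) = x := by simp [bs, hx.2.2]
    simp only [ha2, e1, e2, hK, if_false]
    exact hv.2 ρ x hx
  have hU : Spl S (Up S τ A) (ush S A a1 a2 τ) := by
    refine ⟨fun ρ x => ush_nonneg h1 h2 τ ρ x, ?_⟩
    intro ρ x hx
    obtain ⟨hact, hxU, hyU⟩ := hx
    -- lower bounds at the upper end
    have hyA : S.π ρ x ∉ A := fun h => hyU (Or.inl h)
    have hy' : S.act τ ((S.π τ).symm (S.π ρ x)) → (S.π τ).symm (S.π ρ x) ∉ A := fun ha h =>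
      hyU (Or.inr ⟨_, ha, h, by simp⟩)
    have hb1 : a1 ρ (S.π ρ x) ≤ ush S A a1 a2 τ ρ (S.π ρ x) := by
      unfold ush
      by_cases ha : S.act τ ((S.π τ).symm (S.π ρ x))
      · simp only [ha, hy' ha, hyA, if_true, if_false]; exact le_max_right _ _
      · simp only [ha, if_false]; exact le_rfl
    have hb2 : S.act τ ((S.π τ).symm (S.π ρ x)) →
        a2 ρ ((S.π τ).symm (S.π ρ x)) ≤ ush S A a1 a2 τ ρ (S.π ρ x) := by
      intro ha
      unfold ush
      simp only [ha, hy' ha, hyA, if_true, if_false]; exact le_max_left _ _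
    -- the case x ∈ A
    have hA1 : x ∈ A → 1 ≤ a1 ρ x + ush S A a1 a2 τ ρ (S.π ρ x) := by
      intro hxA
      have := c1 ρ x ⟨hact, hxA, hyA⟩ (fun hK => hK.1 ⟨hact, hxU, hyU⟩)
      linarith
    have hA2 : S.act τ ((S.π τ).symm x) → (S.π τ).symm x ∈ A →
        1 ≤ a2 ρ ((S.π τ).symm x) + ush S A a1 a2 τ ρ (S.π ρ x) := by
      intro ha hw
      have hsw := S.swap τ ρ ((S.π τ).symm x) ha (by simpa using hact)
      have hcm : S.π τ (S.π ρ ((S.π τ).symm x)) = S.π ρ x := by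
        rw [S.comm ρ τ]; simp
      have hpre : (S.π τ).symm (S.π ρ x) = S.π ρ ((S.π τ).symm x) := by
        rw [← hcm]; simp
      have hv1 : Vi S A ρ ((S.π τ).symm x) := by
        refine ⟨hsw.1, hw, ?_⟩
        rw [← hpre]
        exact hy' (by rw [hpre]; exact hsw.2)
      have := c2 ρ _ hv1 (fun hK => hK.2 ha (by
        rw [Equiv.apply_symm_apply]; exact ⟨hact, hxU, hyU⟩))
      have h3 := hb2 (by rw [hpre]; exact hsw.2)
      rw [hpre] at h3
      linarith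
    by_cases ha : S.act τ ((S.π τ).symm x)
    · by_cases hw : (S.π τ).symm x ∈ A
      · by_cases hxA : x ∈ A
        · have e : ush S A a1 a2 τ ρ x = min (a2 ρ ((S.π τ).symm x)) (a1 ρ x) := by
            unfold ush; simp only [ha, hw, hxA, if_true]
          rw [e]
          rcases min_choice (a2 ρ ((S.π τ).symm x)) (a1 ρ x) with h | h
          · rw [h]; exact hA2 ha hw
          · rw [h]; exact hA1 hxA
        · have e : ush S A a1 a2 τ ρ x = a2 ρ ((S.π τ).symm x) := by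
            unfold ush; simp only [ha, hw, hxA, if_true, if_false]
          rw [e]; exact hA2 ha hw
      · have hxA : x ∈ A := by
          rcases hxU with h | ⟨w, hw1, hw2, hw3⟩
          · exact h
          · exact absurd hw2 (by rw [← hw3] at hw; simpa using hw)
        have e : ush S A a1 a2 τ ρ x = a1 ρ x := by
          unfold ush; simp only [ha, hw, hxA, if_true, if_false]
        rw [e]; exact hA1 hxA
    · have hxA : x ∈ A := by
        rcases hxU with h | ⟨w, hw1, hw2, hw3⟩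
        · exact h
        · exact absurd hw1 (by rw [← hw3] at ha; simpa using ha)
      have e : ush S A a1 a2 τ ρ x = a1 ρ x := by
        unfold ush; simp only [ha, if_false]
      rw [e]; exact hA1 hxA
  have hD : Spl S (Dn S τ A) (esh S A a1 a2 τ) := by
    refine ⟨fun ρ x => esh_nonneg h1 h2 τ ρ x, ?_⟩
    intro ρ w hx
    obtain ⟨hact, hwD, hzD⟩ := hx
    have hb1 : a2 ρ w ≤ esh S A a1 a2 τ ρ w := by
      unfold esh
      by_cases ha : S.act τ w
      · simp only [ha, hwD.1, hwD.2 ha, if_true]; exact le_max_left _ _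
      · simp only [ha, if_false]; exact le_rfl
    have hb2 : S.act τ w → a1 ρ (S.π τ w) ≤ esh S A a1 a2 τ ρ w := by
      intro ha
      unfold esh
      simp only [ha, hwD.1, hwD.2 ha, if_true]; exact le_max_right _ _
    have hA1 : S.π ρ w ∉ A → 1 ≤ esh S A a1 a2 τ ρ w + a2 ρ (S.π ρ w) := by
      intro hz
      have := c2 ρ w ⟨hact, hwD.1, hz⟩ (fun hK => hK.1 ⟨hact, hwD, hzD⟩)
      linarith
    have hA2 : S.act τ (S.π ρ w) → S.π τ (S.π ρ w) ∉ A →
        1 ≤ esh S A a1 a2 τ ρ w + a1 ρ (S.π τ (S.π ρ w)) := by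
      intro ha hz
      have hsw := S.swap ρ τ w hact ha
      have hv1 : Vi S A ρ (S.π τ w) := ⟨hsw.2, hwD.2 hsw.1, by rw [← S.comm ρ τ]; exact hz⟩
      have := c1 ρ _ hv1 (fun hK => hK.2 w hsw.1 rfl ⟨hact, hwD, hzD⟩)
      have h3 := hb2 hsw.1
      rw [S.comm ρ τ]
      linarith
    by_cases ha : S.act τ (S.π ρ w)
    · by_cases hz : S.π ρ w ∈ A
      · have hz' : S.π τ (S.π ρ w) ∉ A := fun h => hzD ⟨hz, fun _ => h⟩
        have e : esh S A a1 a2 τ ρ (S.π ρ w) = a1 ρ (S.π τ (S.π ρ w)) := by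
          unfold esh; simp only [ha, hz, hz', if_true, if_false]
        rw [e]; exact hA2 ha hz'
      · by_cases hz' : S.π τ (S.π ρ w) ∈ A
        · have e : esh S A a1 a2 τ ρ (S.π ρ w) = a2 ρ (S.π ρ w) := by
            unfold esh; simp only [ha, hz, hz', if_true, if_false]
          rw [e]; exact hA1 hz
        · have e : esh S A a1 a2 τ ρ (S.π ρ w) =
              min (a2 ρ (S.π ρ w)) (a1 ρ (S.π τ (S.π ρ w))) := by
            unfold esh; simp only [ha, hz, hz', if_true, if_false]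
          rw [e]
          rcases min_choice (a2 ρ (S.π ρ w)) (a1 ρ (S.π τ (S.π ρ w))) with h | h
          · rw [h]; exact hA1 hz
          · rw [h]; exact hA2 ha hz'
    · have hz : S.π ρ w ∉ A := fun h => hzD ⟨h, fun h' => absurd h' ha⟩
      have e : esh S A a1 a2 τ ρ (S.π ρ w) = a2 ρ (S.π ρ w) := by
        unfold esh; simp only [ha, if_false]
      rw [e]; exact hA1 hz
  calc Phi S c (Up S τ A) + Phi S c (Dn S τ A)
      ≤ cost c (ush S A a1 a2 τ) + cost c (esh S A a1 a2 τ) := add_le_add (Phi_le hU) (Phi_le hD)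
    _ ≤ cost c a1 + cost c a2 := cost_split c hc A a1 a2 h1 h2 τ

end Pool.Agent.Q90.HG
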