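import Pool.Agent.Q90.HG.GStm
import Pool.Agent.Q90.HG.Bas

set_option autoImplicit false

/-!
Project HG: the scale by scale argument on the grid.
-/

namespace Pool.Agent.Q90.HG

section gen

variable {V I : Type} [Fintype V]

theorem sd_nonneg (A B : Set V) : 0 ≤ sd A B := by
  classical
  exact Finset.sum_nonneg fun x _ => abs_nonneg _

theorem sd_self (A : Set V) : sd A A = 0 := by
  classical
  simp [sd]

theorem sd_triangle (A B C : Set V) : sd A C ≤ sd A B + sd B C := by
  classical
  unfold sd
  rw [← Finset.sum_add_distrib]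
  refine Finset.sum_le_sum fun x _ => ?_
  exact abs_sub_le _ _ _

theorem sd_le_card (A B : Set V) : sd A B ≤ Fintype.card V := by
  classical
  unfold sd
  calc ∑ x, |mem x A - mem x B| ≤ ∑ _x : V, (1 : ℝ) := by
        refine Finset.sum_le_sum fun x _ => ?_
        rw [abs_le]
        constructor <;> linarith [mem_nonneg x A, mem_nonneg x B, mem_le_one x A, mem_le_one x B]
    _ = Fintype.card V := by simp

theorem Phi_nonneg [Fintype I] (S : Sys V I) (c : I → ℝ) (A : Set V) : 0 ≤ Phi S c A := by
  refine Real.sInf_nonneg ?_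
  rintro r ⟨v, -, rfl⟩
  exact Finset.sum_nonneg fun x _ => Real.sqrt_nonneg _

end gen

/-- The distance to the upper sets. -/
noncomputable def gd (n d : ℕ) (A : Set (Pt n d)) : ℝ :=
  ⨅ B : {B : Set (Pt n d) // IsUpperSet B}, sd A B.1

instance (n d : ℕ) : Nonempty {B : Set (Pt n d) // IsUpperSet B} := ⟨⟨Set.univ, isUpperSet_univ⟩⟩

theorem gd_bdd (n d : ℕ) (A : Set (Pt n d)) :
    BddBelow (Set.range fun B : {B : Set (Pt n d) // IsUpperSet B} => sd A B.1) :=
  ⟨0, by rintro r ⟨B, rfl⟩; exact sd_nonneg _ _⟩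

theorem gd_le {n d : ℕ} (A B : Set (Pt n d)) (hB : IsUpperSet B) : gd n d A ≤ sd A B :=
  ciInf_le (gd_bdd n d A) ⟨B, hB⟩

theorem gd_attained (n d : ℕ) (A : Set (Pt n d)) : ∃ B, IsUpperSet B ∧ sd A B = gd n d A := by
  obtain ⟨B, hB⟩ := exists_eq_ciInf_of_finite
    (f := fun B : {B : Set (Pt n d) // IsUpperSet B} => sd A B.1)
  exact ⟨B.1, B.2, hB⟩

theorem gd_nonneg (n d : ℕ) (A : Set (Pt n d)) : 0 ≤ gd n d A := by
  obtain ⟨B, -, hB⟩ := gd_attained n d A
  rw [← hB]; exact sd_nonneg _ _

theorem gd_card (n d : ℕ) (A : Set (Pt n d)) : gd n d A ≤ Fintype.card (Pt n d) := by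
  obtain ⟨B, -, hB⟩ := gd_attained n d A
  rw [← hB]; exact sd_le_card _ _

theorem gd_tri (n d : ℕ) (A A' : Set (Pt n d)) : gd n d A ≤ sd A A' + gd n d A' := by
  obtain ⟨B, hu, hB⟩ := gd_attained n d A'
  rw [← hB]
  exact (gd_le A B hu).trans (sd_triangle A A' B)

theorem ml_closed (hr : S_rel) (n d : ℕ) [NeZero n] (L : ℕ) : Cl (gs n d) (ML n d L) := by
  intro A hA τ
  exact ⟨fun i a ha => ((hr _ _ (gs n d) τ (i, a) A A).1 (hA i a ha)).1,
    fun i a ha => ((hr _ _ (gs n d) τ (i, a) A A).1 (hA i a ha)).2⟩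

theorem ml_one (n d : ℕ) [NeZero n] (A : Set (Pt n d)) (hA : A ∈ ML n d 1) : IsUpperSet A := by
  classical
  intro x y hxy hx
  have key : ∀ s : Finset (Fin d), (fun i => if i ∈ s then y i else x i) ∈ A := by
    intro s
    induction s using Finset.induction_on with
    | empty => simpa using hx
    | insert j s hj ih =>
      set z : Pt n d := fun i => if i ∈ s then y i else x i with hz
      have hzj : z j = x j := by simp [hz, hj]
      have hle : x j ≤ y j := hxy j
      by_cases he : x j = y j
      · have : (fun i => if i ∈ insert j s then y i else x i) = z := by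
          funext i
          by_cases hi : i = j
          · subst hi; simp [hz, hj, he]
          · simp [hz, Finset.mem_insert, hi]
        rw [this]; exact ih
      · have hlt : x j < y j := lt_of_le_of_ne hle he
        have hv : ((y j - x j : Fin n) : ℕ) = (y j : ℕ) - (x j : ℕ) := Fin.sub_val_of_le hle
        have h1 : 1 ≤ ((y j - x j : Fin n) : ℕ) := by
          rw [hv]; have : (x j : ℕ) < (y j : ℕ) := hlt; omega
        have hact : (gs n d).act (j, y j - x j) z := by
          change (z j : ℕ) + ((y j - x j : Fin n) : ℕ) < n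
          rw [hzj, hv]
          have : (x j : ℕ) < (y j : ℕ) := hlt
          have := (y j).2
          omega
        have h2 := hA j (y j - x j) h1 z hact ih
        have h3 : (gs n d).π (j, y j - x j) z = fun i => if i ∈ insert j s then y i else x i := by
          change Function.update z j (z j + (y j - x j)) = _
          funext i
          by_cases hi : i = j
          · subst hi; simp [hzj]
          · simp [hz, Finset.mem_insert, hi]
        rw [h3] at h2; exact h2
  have := key Finset.univ
  simpa using this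

theorem log_step {L m : ℕ} (hm : m = (L + 3) / 4) (hL : 2 ≤ L) :
    Real.log ((L - m : ℕ) : ℝ) ≤ Real.log L - 1 / 4 := by
  have h1 : 0 < L - m := by omega
  have h2 : 4 * (L - m) ≤ 3 * L := by omega
  have h3 : ((L - m : ℕ) : ℝ) ≤ (3 / 4 : ℝ) * L := by
    have : (4 : ℝ) * ((L - m : ℕ) : ℝ) ≤ 3 * L := by exact_mod_cast h2
    linarith
  have hL0 : (0 : ℝ) < L := by exact_mod_cast (by omega : 0 < L)
  have h4 : Real.log ((L - m : ℕ) : ℝ) ≤ Real.log ((3 / 4 : ℝ) * L) :=
    Real.log_le_log (by exact_mod_cast h1) h3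
  rw [Real.log_mul (by norm_num) (ne_of_gt hL0)] at h4
  have h5 : Real.log (3 / 4 : ℝ) ≤ 3 / 4 - 1 := Real.log_le_sub_one_of_pos (by norm_num)
  linarith

theorem dist_ind (hr : S_rel) (ho : S_own) (hc : S_cnt) (hs : S_stage) (n d : ℕ) [NeZero n]
    (_hn : 2 ≤ n) : ∀ L : ℕ, 1 ≤ L → L ≤ n → ∀ A ∈ ML n d L,
    gd n d A ≤ 4 * Real.log L * (6 * Real.sqrt (8 * Real.log n + 1) + 16) *
      Phi (gs n d) (wt n d) A := by
  classical
  intro L
  induction L using Nat.strong_induction_on with
  | _ L ih =>
    intro hL1 hLn A hA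
    set K : ℝ := 6 * Real.sqrt (8 * Real.log n + 1) + 16 with hK
    have hK0 : 0 ≤ K := by positivity
    rcases Nat.lt_or_ge L 2 with hL2 | hL2
    · have hL : L = 1 := by omega
      subst hL
      have h1 := gd_le A A (ml_one n d A hA)
      rw [sd_self] at h1
      simp only [Nat.cast_one, Real.log_one, mul_zero, zero_mul]
      exact h1
    · set m : ℕ := (L + 3) / 4 with hm
      have hm1 : 1 ≤ m := by omega
      have hm2 : 4 * m ≤ L + 3 := by omega
      have hm3 : 2 * m ≤ L := by omega
      have hL' : 1 ≤ L - m := by omega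
      have hLr : (1 : ℝ) ≤ (L : ℝ) := by exact_mod_cast hL1
      have hlog' : 0 ≤ Real.log ((L - m : ℕ) : ℝ) := Real.log_nonneg (by exact_mod_cast hL')
      set J : Finset (Fin d × Fin n) :=
        Finset.univ.filter (fun τ => L - m ≤ (τ.2 : ℕ) ∧ (τ.2 : ℕ) < L) with hJ
      set R : Finset (Fin d × Fin n) :=
        Finset.univ.filter (fun τ => m ≤ (τ.2 : ℕ) ∧ (τ.2 : ℕ) < L) with hR
      have hw0 : ∀ ρ, 0 ≤ wt n d ρ := fun ρ => by unfold wt; positivity
      have hb0 : 0 ≤ 4 * Real.log ((L - m : ℕ) : ℝ) * K := by positivity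
      have hst := hs (Pt n d) (Fin d × Fin n) (gs n d) J R (ML n d L) (ml_closed hr n d L)
        (fun B hB τ hτ P hP => ho n d L B hB τ (by
          rw [hJ, Finset.mem_filter] at hτ; omega) P hP)
        (wt n d) hw0 (L : ℝ) hLr
        (fun ρ hρ => by
          rw [hR, Finset.mem_filter] at hρ
          unfold wt
          have h1 : (0 : ℝ) < ((ρ.2 : ℕ) : ℝ) := by
            exact_mod_cast (by omega : 0 < (ρ.2 : ℕ))
          have h2 : ((ρ.2 : ℕ) : ℝ) ≤ (L : ℝ) := by exact_mod_cast (by omega : (ρ.2 : ℕ) ≤ L)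
          exact one_div_le_one_div_of_le h1 h2)
        (fun ρ hρ => by
          rw [hJ, Finset.mem_filter] at hρ
          rw [hR, Finset.mem_filter]
          exact ⟨Finset.mem_univ _, by omega, hρ.2.2⟩)
        (fun B hB ρ hρ P hP => by
          rw [hJ, Finset.mem_filter] at hρ
          have h := hc n d L m hm1 hm2 hm3 B hB ρ (by omega) hρ.2.2 P hP
          convert h using 2)
        (gd n d) (gd_nonneg n d) (gd_card n d) (gd_tri n d)
        (4 * Real.log ((L - m : ℕ) : ℝ) * K) hb0
        (fun B hB hv => by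
          refine ih (L - m) (by omega) hL' (by omega) B ?_
          intro i a ha x hact hx
          by_cases haL : (a : ℕ) < L
          · by_contra hcon
            exact hv (i, a) (by rw [hJ, Finset.mem_filter]; exact ⟨Finset.mem_univ _, ha, haL⟩) x
              ⟨hact, hx, hcon⟩
          · exact hB i a (by omega) x hact hx)
        A hA
      refine hst.trans (mul_le_mul_of_nonneg_right ?_ (Phi_nonneg _ _ _))
      have h1 : Real.log (L : ℝ) ≤ Real.log n :=
        Real.log_le_log (by linarith) (by exact_mod_cast hLn)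
      have h2 : Real.sqrt (8 * Real.log L + 1) ≤ Real.sqrt (8 * Real.log n + 1) :=
        Real.sqrt_le_sqrt (by linarith)
      have h3 := log_step hm hL2
      have h4 : (4 * Real.log ((L - m : ℕ) : ℝ) + 1) * K ≤ 4 * Real.log L * K :=
        mul_le_mul_of_nonneg_right (by linarith) hK0
      nlinarith [h4, h2]

/-- HG-DIST. -/
theorem t_dist (hr : S_rel) (ho : S_own) (hc : S_cnt) (hs : S_stage) : S_dist := by
  intro n d _ hn A
  obtain ⟨B, hu, hB⟩ := gd_attained n d A
  refine ⟨B, hu, ?_⟩
  rw [hB]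
  refine dist_ind hr ho hc hs n d hn n (by omega) le_rfl A ?_
  intro i a ha
  exact absurd a.2 (by omega)

end Pool.Agent.Q90.HG
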