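import Pool.Agent.Q90.HG.Bas

set_option autoImplicit false

/-!
Project HG: the drift of a linear functional.
-/

namespace Pool.Agent.Q90.HG

theorem mem_Up {V I : Type} (S : Sys V I) (τ : I) (A : Set V) (y : V) :
    mem y (Up S τ A) = mem y A + vi S τ ((S.π τ).symm y) A := by
  unfold mem vi Vi
  by_cases h1 : y ∈ A
  · have h2 : y ∈ Up S τ A := Or.inl h1
    simp [h1, h2]
  · by_cases h2 : S.act τ ((S.π τ).symm y) ∧ (S.π τ).symm y ∈ A
    · have h3 : y ∈ Up S τ A := Or.inr ⟨_, h2.1, h2.2, by simp⟩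
      simp [h1, h2, h3]
    · have h3 : y ∉ Up S τ A := by
        rintro (h | ⟨x, hx, hxA, rfl⟩)
        · exact h1 h
        · exact h2 (by simpa using ⟨hx, hxA⟩)
      have h4 : ¬ (S.act τ ((S.π τ).symm y) ∧ (S.π τ).symm y ∈ A ∧
          S.π τ ((S.π τ).symm y) ∉ A) := fun h => h2 ⟨h.1, h.2.1⟩
      rw [if_neg h1, if_neg h3, if_neg h4]
      norm_num

theorem mem_Dn {V I : Type} (S : Sys V I) (τ : I) (A : Set V) (x : V) :
    mem x (Dn S τ A) = mem x A - vi S τ x A := by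
  unfold mem vi
  by_cases h1 : x ∈ A
  · by_cases h2 : Vi S A τ x
    · have h3 : x ∉ Dn S τ A := fun h => h2.2.2 (h.2 h2.1)
      simp [h1, h2, h3]
    · have h3 : x ∈ Dn S τ A := ⟨h1, fun h => by
        by_contra h4
        exact h2 ⟨h, h1, h4⟩⟩
      simp [h1, h2, h3]
  · have h2 : ¬ Vi S A τ x := fun h => h1 h.2.1
    have h3 : x ∉ Dn S τ A := fun h => h1 h.1
    simp [h1, h2, h3]

theorem t_flux : S_flux := by
  intro V I _ _ S p ψ A
  have hU : ∀ τ, ∑ x, ψ x * mem x (Up S τ A) =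
      ∑ x, ψ x * mem x A + ∑ x, vi S τ x A * ψ (S.π τ x) := by
    intro τ
    have h1 : ∑ x, ψ x * vi S τ ((S.π τ).symm x) A = ∑ x, vi S τ x A * ψ (S.π τ x) := by
      rw [← Equiv.sum_comp (S.π τ)]
      refine Finset.sum_congr rfl fun x _ => ?_
      rw [Equiv.symm_apply_apply, mul_comm]
    rw [← h1, ← Finset.sum_add_distrib]
    refine Finset.sum_congr rfl fun x _ => ?_
    rw [mem_Up]; ring
  have hD : ∀ τ, ∑ x, ψ x * mem x (Dn S τ A) =
      ∑ x, ψ x * mem x A - ∑ x, vi S τ x A * ψ x := by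
    intro τ
    rw [← Finset.sum_sub_distrib]
    refine Finset.sum_congr rfl fun x _ => ?_
    rw [mem_Dn]; ring
  simp only [T]
  have h2 : ∀ τ, p τ / 2 * (∑ x, ψ x * mem x (Up S τ A) + ∑ x, ψ x * mem x (Dn S τ A)) =
      p τ * (∑ x, ψ x * mem x A) +
        p τ / 2 * ∑ x, vi S τ x A * (ψ (S.π τ x) - ψ x) := by
    intro τ
    have h3 : ∑ x, vi S τ x A * (ψ (S.π τ x) - ψ x) =
        ∑ x, vi S τ x A * ψ (S.π τ x) - ∑ x, vi S τ x A * ψ x := by
      rw [← Finset.sum_sub_distrib]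
      exact Finset.sum_congr rfl fun x _ => by ring
    rw [hU, hD, h3]; ring
  rw [Finset.sum_congr rfl fun τ _ => h2 τ, Finset.sum_add_distrib, ← Finset.sum_mul]
  ring

end Pool.Agent.Q90.HG
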