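import Pool.Agent.Q90.HG.Sup

set_option autoImplicit false

/-!
Project HG: cleaning of the violated edges with types in `J`.
-/

namespace Pool.Agent.Q90.HG

namespace Ax

section

variable {V I : Type} [Fintype V] [Fintype I] {S : Sys V I} {p : I → ℝ}

/-- Iteration of a supermartingale inequality. -/
theorem iter_super (hp : Pr p) {F : Set V → ℝ} (h : ∀ A, T S p F A ≤ F A) (n : ℕ) (A : Set V) :
    ((T S p)^[n] F) A ≤ F A := by
  induction n with
  | zero => exact le_refl _
  | succ n ih =>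
    rw [Function.iterate_succ_apply]
    exact (iter_mono hp h n A).trans ih

/-- Iteration of a contraction on a closed class. -/
theorem iter_contr (hp : Pr p) {C : Set (Set V)} (hC : Cl S C) {F : Set V → ℝ} {θ : ℝ}
    (hθ : 0 ≤ θ) (h : ∀ A ∈ C, T S p F A ≤ θ * F A) (n : ℕ) :
    ∀ A ∈ C, ((T S p)^[n] F) A ≤ θ ^ n * F A := by
  induction n with
  | zero => intro A _; simp
  | succ n ih =>
    intro A hA
    rw [iter_succ']
    refine (T_mono_on (G := fun B => θ ^ n * F B) hp hC ih hA).trans ?_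
    have e : T S p (fun B => θ ^ n * F B) A = θ ^ n * T S p F A := by
      have := iter_mul (S := S) (p := p) 1 (θ ^ n) F A
      simpa using this
    rw [e, pow_succ, mul_assoc]
    exact mul_le_mul_of_nonneg_left (h A hA) (pow_nonneg hθ n)

/-- A violated edge makes the cost large. -/
theorem half_le_Phi {c : I → ℝ} {ρ : I} (hc : ∀ σ, 0 ≤ c σ) (h1 : 1 ≤ c ρ) {A : Set V} {P : V}
    (hP : Vi S A ρ P) : 1 / 2 ≤ Phi S c A := by
  refine le_Phi fun v hv => ?_
  have h2 := hv.2 ρ P hP
  obtain ⟨x, hx⟩ : ∃ x, 1 / 2 ≤ v ρ x := by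
    by_contra h3
    push Not at h3
    have := h3 P
    have := h3 (S.π ρ P)
    linarith
  have h4 : v ρ x ≤ Real.sqrt (∑ σ, c σ * v σ x ^ 2) := by
    refine Real.le_sqrt_of_sq_le ?_
    have h5 : c ρ * v ρ x ^ 2 ≤ ∑ σ, c σ * v σ x ^ 2 :=
      Finset.single_le_sum (f := fun σ => c σ * v σ x ^ 2)
        (fun σ _ => mul_nonneg (hc σ) (sq_nonneg _)) (Finset.mem_univ ρ)
    nlinarith [sq_nonneg (v ρ x)]
  have h6 : Real.sqrt (∑ σ, c σ * v σ x ^ 2) ≤ cost c v :=
    Finset.single_le_sum (f := fun x => Real.sqrt (∑ σ, c σ * v σ x ^ 2))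
      (fun _ _ => Real.sqrt_nonneg _) (Finset.mem_univ x)
  linarith

/-- Movement of a functional which is Lipschitz in the symmetric difference. -/
theorem G_le (hp : Pr p) {G : Set V → ℝ} (hG : ∀ A B, G A ≤ sd A B + G B) (n : ℕ) (A : Set V) :
    G A ≤ ((T S p)^[n] (sd A)) A + ((T S p)^[n] G) A := by
  have h1 := iter_mono (S := S) hp (F := fun _ => G A) (G := fun B => sd A B + G B)
    (fun B => hG A B) n A
  rw [iter_const, iter_add] at h1
  exact h1

end

theorem exp_half : Real.exp (-(1 / 2)) ≤ 0.61 := by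
  have h1 : Real.exp (-(1 / 2)) ^ 2 = Real.exp (-1) := by
    rw [← Real.exp_nat_mul]; norm_num
  have h2 : Real.exp (-1) * Real.exp 1 = 1 := by rw [← Real.exp_add]; norm_num
  have h3 := Real.exp_one_gt_d9
  have h4 := Real.exp_pos (-1)
  have h5 := Real.exp_pos (-(1 / 2))
  by_contra h6
  push Not at h6
  have h7 : 0.61 ^ 2 < Real.exp (-(1 / 2)) ^ 2 := by gcongr
  rw [h1] at h7
  nlinarith

end Ax

open Ax

open Classical in
theorem t_long (hm : S_mov) (hs : S_super) : S_long := by
  intro V I _ _ S J C hC hK w hw G hG0 hG1 hG2 b hb hclean A hA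
  set one : I → ℝ := fun ρ => if ρ ∈ J then 1 else 0 with hone
  have hone0 : ∀ ρ, 0 ≤ one ρ := fun ρ => by simp only [hone]; split_ifs <;> norm_num
  by_cases hJ : J = ∅
  · have h1 := hclean A hA (fun ρ hρ => by rw [hJ] at hρ; exact absurd hρ (Finset.notMem_empty ρ))
    have h2 := Phi_nonneg (S := S) one A
    linarith
  have hJc : 0 < J.card := Finset.card_pos.2 (Finset.nonempty_iff_ne_empty.2 hJ)
  have hJc' : (1 : ℝ) ≤ J.card := by exact_mod_cast hJc
  set M : ℕ := 2 * J.card with hM
  have hMr : (M : ℝ) = 2 * J.card := by rw [hM]; push_cast; ring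
  have hM0 : (0 : ℝ) < M := by rw [hMr]; linarith
  set p : I → ℝ := fun ρ => 1 / (M : ℝ) * one ρ with hpd
  have hsum : ∑ ρ, p ρ = 1 / 2 := by
    simp only [hpd, hone]
    rw [← Finset.mul_sum, Finset.sum_ite_mem, Finset.univ_inter, Finset.sum_const, nsmul_eq_mul,
      mul_one, hMr]
    field_simp
  have hp : Pr p := ⟨fun ρ => mul_nonneg (by positivity) (hone0 ρ), by rw [hsum]⟩
  have hKnn : ∀ (B : Set V) (ρ : I) (P : V), 0 ≤ ∑ τ, p τ / 2 *
      ((if K1 S B τ ρ P then (1 : ℝ) else 0) + (if K2 S B τ ρ P then (1 : ℝ) else 0)) := by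
    intro B ρ P
    refine Finset.sum_nonneg fun τ _ => mul_nonneg (by linarith [hp.1 τ]) ?_
    split_ifs <;> norm_num
  -- the cost with the weights `w`
  have hW : ∀ B, T S p (Phi S w) B ≤ Phi S w B := by
    intro B
    refine hs V I S p hp w w hw hw B fun ρ P _ => ?_
    have h1 := hKnn B ρ P
    nlinarith [hw ρ]
  -- the cost with the weights `one`
  set θ₀ : ℝ := Real.sqrt (1 - 1 / M) with hθ₀
  have hM1 : 0 ≤ 1 - 1 / (M : ℝ) := by
    rw [sub_nonneg, div_le_one hM0, hMr]; linarith
  have hL : ∀ B ∈ C, T S p (Phi S one) B ≤ θ₀ * Phi S one B := by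
    intro B hB
    refine (hs V I S p hp (fun ρ => (1 - 1 / (M : ℝ)) * one ρ) one
      (fun ρ => mul_nonneg hM1 (hone0 ρ)) hone0 B fun ρ P hP => ?_).trans (Phi_scale hM1 one B)
    by_cases hρ : ρ ∈ J
    · have e1 : one ρ = 1 := by simp [hone, hρ]
      have h1 : p ρ / 2 * ((if K1 S B ρ ρ P then (1 : ℝ) else 0) +
          (if K2 S B ρ ρ P then (1 : ℝ) else 0)) ≤ ∑ τ, p τ / 2 *
          ((if K1 S B τ ρ P then (1 : ℝ) else 0) + (if K2 S B τ ρ P then (1 : ℝ) else 0)) := by
        refine Finset.single_le_sum (f := fun τ => p τ / 2 *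
          ((if K1 S B τ ρ P then (1 : ℝ) else 0) + (if K2 S B τ ρ P then (1 : ℝ) else 0)))
          (fun τ _ => mul_nonneg (by linarith [hp.1 τ]) ?_) (Finset.mem_univ ρ)
        split_ifs <;> norm_num
      have h2 := hK B hB ρ hρ P hP
      rw [if_pos h2.1, if_pos h2.2] at h1
      have h3 : p ρ = 1 / (M : ℝ) := by simp only [hpd, e1, mul_one]
      rw [h3] at h1
      rw [e1]
      linarith
    · have e1 : one ρ = 0 := by simp [hone, hρ]
      rw [e1]; simp
  set θ : ℝ := θ₀ ^ M with hθ
  have hθ0 : 0 ≤ θ := pow_nonneg (Real.sqrt_nonneg _) _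
  have hθ1 : θ ≤ 0.61 := by
    refine le_trans ?_ exp_half
    rw [hθ, hM, pow_mul, hθ₀, Real.sq_sqrt hM1]
    have h1 : 1 - 1 / (M : ℝ) ≤ Real.exp (-(1 / (M : ℝ))) := by
      have := Real.add_one_le_exp (-(1 / (M : ℝ)))
      linarith
    calc (1 - 1 / (M : ℝ)) ^ J.card ≤ Real.exp (-(1 / (M : ℝ))) ^ J.card :=
          pow_le_pow_left₀ hM1 h1 _
      _ = Real.exp (-(1 / 2)) := by
          rw [← Real.exp_nat_mul, hMr]
          congr 1
          field_simp
  have hLM : ∀ B ∈ C, ((T S p)^[M] (Phi S one)) B ≤ θ * Phi S one B :=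
    iter_contr hp hC (Real.sqrt_nonneg _) hL M
  -- the movement
  have hmov : ∀ B, ((T S p)^[M] (sd B)) B ≤ 6 * Phi S one B := by
    intro B
    have h1 : ((T S p)^[M] (sd B)) B / 6 ≤ Phi S one B := by
      refine le_Phi fun v hv => ?_
      have h2 := hm V I S p hp M B v hv
      have h3 : cost p v = Real.sqrt (1 / (M : ℝ)) * cost one v :=
        cost_scale (by positivity) one v
      have h4 : Real.sqrt M * Real.sqrt (1 / (M : ℝ)) = 1 := by
        rw [← Real.sqrt_mul hM0.le, mul_one_div_cancel hM0.ne', Real.sqrt_one]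
      rw [h3] at h2
      have h5 : 6 * Real.sqrt M * (Real.sqrt (1 / (M : ℝ)) * cost one v) = 6 * cost one v := by
        calc 6 * Real.sqrt M * (Real.sqrt (1 / (M : ℝ)) * cost one v)
            = 6 * (Real.sqrt M * Real.sqrt (1 / (M : ℝ))) * cost one v := by ring
          _ = _ := by rw [h4, mul_one]
      rw [h5] at h2
      linarith
    linarith
  -- the iteration
  have key : ∀ (j : ℕ), ∀ B ∈ C, G B ≤ b * Phi S w B +
      (16 + 2 * Fintype.card V * θ ^ j) * Phi S one B := by
    intro j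
    induction j with
    | zero =>
      intro B hB
      have h1 := Phi_nonneg (S := S) one B
      have h2 := Phi_nonneg (S := S) w B
      have h5 : (0 : ℝ) ≤ Fintype.card V := by positivity
      by_cases hv : ∀ ρ ∈ J, ∀ P, ¬ Vi S B ρ P
      · have h3 := hclean B hB hv
        have h4 : 0 ≤ (16 + 2 * Fintype.card V * θ ^ 0) * Phi S one B := by positivity
        linarith
      · push Not at hv
        obtain ⟨ρ, hρ, P, hP⟩ := hv
        have h3 := half_le_Phi (c := one) hone0 (by simp [hone, hρ] : 1 ≤ one ρ) hP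
        have h4 := hG1 B
        have h6 : (Fintype.card V : ℝ) ≤ 2 * Fintype.card V * Phi S one B := by nlinarith
        have h7 := mul_nonneg hb h2
        rw [pow_zero, mul_one]
        nlinarith
    | succ j ih =>
      intro B hB
      have h1 := G_le (S := S) hp hG2 M B
      have h2 := iter_mono_on hp hC ih M B hB
      rw [iter_add, iter_mul, iter_mul] at h2
      have h3 := iter_super hp hW M B
      have h4 := hLM B hB
      have h5 := hmov B
      have h6 := Phi_nonneg (S := S) one B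
      have h7 : (0 : ℝ) ≤ 16 + 2 * Fintype.card V * θ ^ j := by positivity
      have h8 := mul_le_mul_of_nonneg_left h3 hb
      have h9 := mul_le_mul_of_nonneg_left h4 h7
      have h10 : G B ≤ 6 * Phi S one B + (b * Phi S w B +
          (16 + 2 * Fintype.card V * θ ^ j) * (θ * Phi S one B)) := by linarith
      refine h10.trans ?_
      have h11 : (6 + 16 * θ) * Phi S one B ≤ 16 * Phi S one B :=
        mul_le_mul_of_nonneg_right (by linarith) h6
      rw [pow_succ]
      nlinarith
  have hlim : Filter.Tendsto (fun j : ℕ => b * Phi S w A +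
      (16 + 2 * Fintype.card V * θ ^ j) * Phi S one A) Filter.atTop
      (nhds (b * Phi S w A + (16 + 2 * Fintype.card V * 0) * Phi S one A)) := by
    have h1 := tendsto_pow_atTop_nhds_zero_of_lt_one hθ0 (by linarith : θ < 1)
    exact ((h1.const_mul _).const_add _ |>.mul_const _).const_add _
  have h2 := ge_of_tendsto' hlim fun j => key j A hA
  simpa using h2

end Pool.Agent.Q90.HG
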