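import Pool.Agent.Q90.HG.Bas

set_option autoImplicit false

/-!
Project HG, job MOV: expected movement in `N` steps.
-/

namespace Pool.Agent.Q90.HG

variable {V I : Type}

theorem mem_sq (x : V) (A : Set V) : mem x A * mem x A = mem x A := by
  unfold mem; split_ifs <;> norm_num

theorem abs_mem_sub (x : V) (A B : Set V) :
    |mem x A - mem x B| = mem x A + mem x B - 2 * (mem x A * mem x B) := by
  unfold mem; split_ifs <;> norm_num

theorem vi_of_not_act {S : Sys V I} {τ : I} {x : V} (h : ¬ S.act τ x) :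
    vi S τ x = fun _ => (0 : ℝ) := by
  funext B
  unfold vi Vi
  rw [if_neg (fun h' => h h'.1)]

theorem mem_sub_le_vi {S : Sys V I} {τ : I} {x : V} (h : S.act τ x) (A : Set V) :
    mem x A - mem (S.π τ x) A ≤ vi S τ x A := by
  unfold mem vi Vi
  by_cases h1 : x ∈ A <;> by_cases h2 : S.π τ x ∈ A <;> simp [h, h1, h2]

theorem vi_le_split {S : Sys V I} {A : Set V} {v : I → V → ℝ} (hv : Spl S A v) (τ : I) (x : V) :
    vi S τ x A ≤ v τ x + v τ (S.π τ x) := by
  unfold vi
  split_ifs with h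
  · exact hv.2 τ x h
  · exact add_nonneg (hv.1 _ _) (hv.1 _ _)

theorem sqrt_step (k : ℕ) : Real.sqrt (8 / ((k : ℝ) + 1)) ≤
    6 * Real.sqrt ((k + 1 : ℕ) : ℝ) - 6 * Real.sqrt (k : ℝ) := by
  have hk : (0 : ℝ) ≤ k := Nat.cast_nonneg k
  set a := Real.sqrt ((k + 1 : ℕ) : ℝ) with ha
  set b := Real.sqrt (k : ℝ) with hb
  have ha2 : a ^ 2 = (k : ℝ) + 1 := by
    rw [ha, Real.sq_sqrt (by positivity)]; push_cast; ring
  have hb2 : b ^ 2 = (k : ℝ) := by rw [hb, Real.sq_sqrt hk]
  have ha0 : 0 < a := by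
    rw [ha]; exact Real.sqrt_pos.2 (by positivity)
  have h1 : Real.sqrt (8 / ((k : ℝ) + 1)) ≤ 3 / a := by
    refine Real.sqrt_le_iff.2 ⟨by positivity, ?_⟩
    rw [div_pow, ha2]
    gcongr
    norm_num
  have h2 : 3 / a ≤ 6 * a - 6 * b := by
    rw [div_le_iff₀ ha0]
    nlinarith [sq_nonneg (a - b)]
  exact h1.trans h2

theorem sum_sqrt_step (N : ℕ) :
    ∑ k ∈ Finset.range N, Real.sqrt (8 / ((k : ℝ) + 1)) ≤ 6 * Real.sqrt (N : ℝ) := by
  induction N with
  | zero => simp
  | succ n ih =>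
    rw [Finset.sum_range_succ]
    have := sqrt_step n
    linarith

/-- One term: the correlation of the violation probabilities with the violated edges. -/
theorem mov_term (hv : S_vec) [Fintype V] [Fintype I] (S : Sys V I) (p : I → ℝ) (hp : Pr p)
    (k : ℕ) (A : Set V) (v : I → V → ℝ) (hs : Spl S A v) :
    ∑ τ, p τ * ∑ x, ((T S p)^[k] (vi S τ x)) A * (mem x A - mem (S.π τ x) A) ≤
      Real.sqrt (8 / ((k : ℝ) + 1)) * cost p v := by
  set K : I → V → ℝ := fun τ x => ((T S p)^[k] (vi S τ x)) A with hK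
  have hK0 : ∀ τ x, 0 ≤ K τ x := fun τ x => iter_nonneg hp (fun B => vi_nonneg τ x B) k A
  have h1 : ∀ τ x, K τ x * (mem x A - mem (S.π τ x) A) ≤ K τ x * (v τ x + v τ (S.π τ x)) := by
    intro τ x
    by_cases ha : S.act τ x
    · exact mul_le_mul_of_nonneg_left ((mem_sub_le_vi ha A).trans (vi_le_split hs τ x)) (hK0 τ x)
    · have : K τ x = 0 := by
        simp only [hK]
        rw [vi_of_not_act ha, iter_const]
      rw [this]; simp
  have h2 : ∀ τ, ∑ x, K τ x * (v τ x + v τ (S.π τ x)) =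
      ∑ z, v τ z * (K τ z + K τ ((S.π τ).symm z)) := by
    intro τ
    have h3 : ∑ x, K τ x * v τ (S.π τ x) = ∑ z, K τ ((S.π τ).symm z) * v τ z := by
      rw [← Equiv.sum_comp (S.π τ) (fun z => K τ ((S.π τ).symm z) * v τ z)]
      simp
    calc ∑ x, K τ x * (v τ x + v τ (S.π τ x))
        = ∑ x, K τ x * v τ x + ∑ x, K τ x * v τ (S.π τ x) := by
          rw [← Finset.sum_add_distrib]
          exact Finset.sum_congr rfl fun x _ => by ring
      _ = ∑ x, K τ x * v τ x + ∑ z, K τ ((S.π τ).symm z) * v τ z := by rw [h3]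
      _ = ∑ z, v τ z * (K τ z + K τ ((S.π τ).symm z)) := by
          rw [← Finset.sum_add_distrib]
          exact Finset.sum_congr rfl fun x _ => by ring
  have h4 : ∀ z, ∑ τ, p τ * (v τ z * (K τ z + K τ ((S.π τ).symm z))) ≤
      Real.sqrt (8 / ((k : ℝ) + 1)) * Real.sqrt (∑ ρ, p ρ * v ρ z ^ 2) := by
    intro z
    have h5 := Real.sum_mul_le_sqrt_mul_sqrt Finset.univ
      (fun τ => Real.sqrt (p τ) * v τ z)
      (fun τ => Real.sqrt (p τ) * (K τ z + K τ ((S.π τ).symm z)))
    have h6 : ∑ τ, p τ * (v τ z * (K τ z + K τ ((S.π τ).symm z))) =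
        ∑ τ, (Real.sqrt (p τ) * v τ z) *
          (Real.sqrt (p τ) * (K τ z + K τ ((S.π τ).symm z))) := by
      refine Finset.sum_congr rfl fun τ _ => ?_
      have := Real.mul_self_sqrt (hp.1 τ)
      calc p τ * (v τ z * (K τ z + K τ ((S.π τ).symm z)))
          = (Real.sqrt (p τ) * Real.sqrt (p τ)) * (v τ z * (K τ z + K τ ((S.π τ).symm z))) := by
            rw [this]
        _ = _ := by ring
    have h7 : ∑ τ, (Real.sqrt (p τ) * v τ z) ^ 2 = ∑ ρ, p ρ * v ρ z ^ 2 := by
      refine Finset.sum_congr rfl fun τ _ => ?_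
      rw [mul_pow, Real.sq_sqrt (hp.1 τ)]
    have h8 : ∑ τ, (Real.sqrt (p τ) * (K τ z + K τ ((S.π τ).symm z))) ^ 2 ≤
        8 / ((k : ℝ) + 1) := by
      have h9 := hv V I S p hp k z A
      calc ∑ τ, (Real.sqrt (p τ) * (K τ z + K τ ((S.π τ).symm z))) ^ 2
          = ∑ τ, p τ * (K τ z + K τ ((S.π τ).symm z)) ^ 2 := by
            refine Finset.sum_congr rfl fun τ _ => ?_
            rw [mul_pow, Real.sq_sqrt (hp.1 τ)]
        _ ≤ ∑ τ, 2 * (p τ * (K τ z ^ 2 + K τ ((S.π τ).symm z) ^ 2)) := by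
            refine Finset.sum_le_sum fun τ _ => ?_
            have := hp.1 τ
            nlinarith [mul_nonneg this (sq_nonneg (K τ z - K τ ((S.π τ).symm z)))]
        _ = 2 * ∑ τ, p τ * (K τ z ^ 2 + K τ ((S.π τ).symm z) ^ 2) := by rw [Finset.mul_sum]
        _ ≤ 2 * (4 / ((k : ℝ) + 1)) := by
            exact mul_le_mul_of_nonneg_left h9 (by norm_num)
        _ = 8 / ((k : ℝ) + 1) := by ring
    rw [h6]
    refine h5.trans ?_
    rw [h7, mul_comm]
    exact mul_le_mul_of_nonneg_right (Real.sqrt_le_sqrt h8) (Real.sqrt_nonneg _)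
  calc ∑ τ, p τ * ∑ x, K τ x * (mem x A - mem (S.π τ x) A)
      ≤ ∑ τ, p τ * ∑ x, K τ x * (v τ x + v τ (S.π τ x)) :=
        Finset.sum_le_sum fun τ _ => mul_le_mul_of_nonneg_left
          (Finset.sum_le_sum fun x _ => h1 τ x) (hp.1 τ)
    _ = ∑ τ, p τ * ∑ z, v τ z * (K τ z + K τ ((S.π τ).symm z)) :=
        Finset.sum_congr rfl fun τ _ => by rw [h2 τ]
    _ = ∑ z, ∑ τ, p τ * (v τ z * (K τ z + K τ ((S.π τ).symm z))) := by
        rw [Finset.sum_comm]
        exact Finset.sum_congr rfl fun τ _ => by rw [Finset.mul_sum]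
    _ ≤ ∑ z, Real.sqrt (8 / ((k : ℝ) + 1)) * Real.sqrt (∑ ρ, p ρ * v ρ z ^ 2) :=
        Finset.sum_le_sum fun z _ => h4 z
    _ = Real.sqrt (8 / ((k : ℝ) + 1)) * cost p v := by
        unfold cost; rw [Finset.mul_sum]

/-- HG-MOV. -/
theorem t_mov (hf : S_flux) (hv : S_vec) : S_mov := by
  intro V I _ _ S p hp N A v hs
  classical
  set F : Set V → ℝ := fun B => ∑ x, mem x A * mem x B with hF
  set G : Set V → ℝ := fun B => ∑ x, (1 : ℝ) * mem x B with hG
  have hTG : T S p G = G := by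
    funext B
    have := hf V I S p (fun _ => (1 : ℝ)) B
    simp only [sub_self, mul_zero, Finset.sum_const_zero, add_zero] at this
    exact this
  have hTGN : ∀ n : ℕ, (T S p)^[n] G = G := by
    intro n
    induction n with
    | zero => rfl
    | succ n ih => rw [Function.iterate_succ, Function.comp, hTG, ih]
  have hFA : F A = G A := by
    simp only [hF, hG]
    exact Finset.sum_congr rfl fun x _ => by rw [mem_sq, one_mul]
  have hsd : sd A = fun B => (G A + G B) - 2 * F B := by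
    funext B
    simp only [sd, hF, hG]
    rw [Finset.mul_sum, ← Finset.sum_add_distrib, ← Finset.sum_sub_distrib]
    exact Finset.sum_congr rfl fun x _ => by rw [abs_mem_sub]; ring
  -- the drift of `F`
  set D : Set V → ℝ := fun B => ∑ τ, p τ * ∑ x, (mem x A - mem (S.π τ x) A) * vi S τ x B with hD
  have hTF : T S p F = fun B => F B - (1 / 2) * D B := by
    funext B
    have := hf V I S p (fun x => mem x A) B
    simp only [hF]
    rw [this]
    have h1 : ∑ τ, p τ / 2 * ∑ x, vi S τ x B * (mem (S.π τ x) A - mem x A) = -((1 / 2) * D B) := by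
      simp only [hD]
      rw [Finset.mul_sum, ← Finset.sum_neg_distrib]
      refine Finset.sum_congr rfl fun τ _ => ?_
      rw [Finset.mul_sum, Finset.mul_sum, Finset.mul_sum, ← Finset.sum_neg_distrib]
      exact Finset.sum_congr rfl fun x _ => by ring
    rw [h1]; ring
  have htel : ∀ n : ℕ, ((T S p)^[n] F) A = F A - (1 / 2) * ∑ k ∈ Finset.range n,
      ((T S p)^[k] D) A := by
    intro n
    induction n with
    | zero => simp
    | succ n ih =>
      rw [Function.iterate_succ, Function.comp, hTF, iter_sub, iter_mul, ih,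
        Finset.sum_range_succ]
      ring
  have hDk : ∀ k : ℕ, ((T S p)^[k] D) A =
      ∑ τ, p τ * ∑ x, ((T S p)^[k] (vi S τ x)) A * (mem x A - mem (S.π τ x) A) := by
    intro k
    simp only [hD]
    rw [iter_sum]
    refine Finset.sum_congr rfl fun τ _ => ?_
    rw [iter_mul, iter_sum]
    congr 1
    refine Finset.sum_congr rfl fun x _ => ?_
    have : (fun B => (mem x A - mem (S.π τ x) A) * vi S τ x B) =
      fun B => (mem x A - mem (S.π τ x) A) * (vi S τ x) B := rfl
    rw [this, iter_mul]; ring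
  have hmain : ((T S p)^[N] (sd A)) A = ∑ k ∈ Finset.range N, ((T S p)^[k] D) A := by
    rw [hsd, iter_sub, iter_mul, iter_add, iter_const, hTGN, htel, hFA]
    ring
  rw [hmain]
  have hc : 0 ≤ cost p v := by
    unfold cost
    exact Finset.sum_nonneg fun x _ => Real.sqrt_nonneg _
  calc ∑ k ∈ Finset.range N, ((T S p)^[k] D) A
      ≤ ∑ k ∈ Finset.range N, Real.sqrt (8 / ((k : ℝ) + 1)) * cost p v :=
        Finset.sum_le_sum fun k _ => by
          rw [hDk]; exact mov_term hv S p hp k A v hs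
    _ = (∑ k ∈ Finset.range N, Real.sqrt (8 / ((k : ℝ) + 1))) * cost p v := by
        rw [Finset.sum_mul]
    _ ≤ 6 * Real.sqrt N * cost p v := mul_le_mul_of_nonneg_right (sum_sqrt_step N) hc

end Pool.Agent.Q90.HG
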