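import Pool.Agent.Q90.HG.GStm

set_option autoImplicit false

/-!
Project HG: the grid. Closure of the classes `ML`, own killing, counting of the killing steps.
-/

namespace Pool.Agent.Q90.HG

variable {n d : ℕ} [NeZero n]

theorem gs_act (i : Fin d) (a : Fin n) (P : Pt n d) :
    (gs n d).act (i, a) P ↔ (P i : ℕ) + (a : ℕ) < n := Iff.rfl

theorem gs_pi (i : Fin d) (a : Fin n) (P : Pt n d) :
    (gs n d).π (i, a) P = Function.update P i (P i + a) := rfl

theorem gs_val {i : Fin d} {a : Fin n} {P : Pt n d} (h : (gs n d).act (i, a) P) :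
    (((gs n d).π (i, a) P) i : ℕ) = (P i : ℕ) + (a : ℕ) := by
  rw [gs_pi, Function.update_self]
  exact Fin.val_add_eq_of_add_lt h

theorem gs_add {i : Fin d} {a b : Fin n} {P : Pt n d} (h1 : (gs n d).act (i, a) P)
    (h2 : (gs n d).act (i, b) ((gs n d).π (i, a) P)) :
    ((a + b : Fin n) : ℕ) = (a : ℕ) + (b : ℕ) ∧ (gs n d).act (i, a + b) P ∧
      (gs n d).π (i, b) ((gs n d).π (i, a) P) = (gs n d).π (i, a + b) P := by
  rw [gs_act, gs_val h1] at h2
  have h3 : ((a + b : Fin n) : ℕ) = (a : ℕ) + (b : ℕ) := Fin.val_add_eq_of_add_lt (by omega)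
  refine ⟨h3, ?_, ?_⟩
  · rw [gs_act, h3]; omega
  · simp only [gs_pi, Function.update_self, Function.update_idem, add_assoc]

theorem ml_cl (h : S_rel) (n d : ℕ) [NeZero n] (L : ℕ) : Cl (gs n d) (ML n d L) := by
  intro A hA τ
  exact ⟨fun i a hL => ((h _ _ (gs n d) τ (i, a) A A).1 (hA i a hL)).1,
    fun i a hL => ((h _ _ (gs n d) τ (i, a) A A).1 (hA i a hL)).2⟩

theorem t_own : S_own := by
  intro n d _ L A hA τ hL P hP
  obtain ⟨i, a⟩ := τ
  obtain ⟨hact, hPA, hQ⟩ := hP
  simp only at hL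
  refine ⟨⟨?_, ?_⟩, ⟨?_, ?_⟩⟩
  · rintro ⟨-, -, h⟩
    exact h (Or.inr ⟨P, hact, hPA, rfl⟩)
  · rintro w hw rfl ⟨-, h1, h2⟩
    obtain ⟨e1, e2, e3⟩ := gs_add hw hact
    apply hQ
    rw [e3]
    exact hA i (a + a) (by omega) w e2 h1.1
  · rintro ⟨-, h, -⟩
    exact hQ (h.2 hact)
  · rintro - ⟨h1, -, h2⟩
    obtain ⟨e1, e2, e3⟩ := gs_add hact h1
    apply h2
    left
    rw [e3]
    exact hA i (a + a) (by omega) P e2 hPA

open Classical in
theorem t_cnt : S_cnt := by
  intro n d _ L m hm h4 h2 A hA ρ hD hDL P hP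
  obtain ⟨i, D⟩ := ρ
  obtain ⟨hact, hPA, hQ⟩ := hP
  simp only at hD hDL
  have hact0 : (P i : ℕ) + (D : ℕ) < n := hact
  -- the shifts by at most `D` are active
  have hac : ∀ a : Fin n, (a : ℕ) ≤ (D : ℕ) → (gs n d).act (i, a) P := fun a ha => by
    rw [gs_act]; omega
  -- reflection
  have hsub : ∀ a : Fin n, (a : ℕ) ≤ (D : ℕ) → ((D - a : Fin n) : ℕ) = (D : ℕ) - (a : ℕ) :=
    fun a ha => Fin.sub_val_of_le (by exact ha)
  have hk1 : ∀ a : Fin n, m ≤ (a : ℕ) → (a : ℕ) ≤ (D : ℕ) → (gs n d).π (i, D - a) P ∈ A →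
      K1 (gs n d) A (i, a) (i, D) P := by
    intro a ham haD hin
    have hac1 : (gs n d).act (i, D - a) P := hac _ (by rw [hsub a haD]; omega)
    have hac2 : (gs n d).act (i, a) ((gs n d).π (i, D - a) P) := by
      rw [gs_act, gs_val hac1, hsub a haD]; omega
    refine ⟨?_, ?_⟩
    · rintro ⟨-, -, h⟩
      apply h
      right
      refine ⟨(gs n d).π (i, D - a) P, hac2, hin, ?_⟩
      rw [(gs_add hac1 hac2).2.2, sub_add_cancel]
    · rintro w hw rfl ⟨-, h1, -⟩
      obtain ⟨e1, e2, e3⟩ := gs_add hw hact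
      apply hQ
      rw [e3]
      exact hA i (a + D) (by omega) w e2 h1.1
  have hk2 : ∀ a : Fin n, m ≤ (a : ℕ) → (a : ℕ) ≤ (D : ℕ) → (gs n d).π (i, a) P ∉ A →
      K2 (gs n d) A (i, a) (i, D) P := by
    intro a ham haD hin
    refine ⟨?_, ?_⟩
    · rintro ⟨-, h, -⟩
      exact hin (h.2 (hac a haD))
    · rintro - ⟨h1, -, h2⟩
      obtain ⟨e1, e2, e3⟩ := gs_add (hac a haD) h1
      apply h2
      left
      rw [e3]
      exact hA i (a + D) (by omega) P e2 hPA
  set g : Fin d × Fin n → ℝ := fun τ => (if K1 (gs n d) A τ (i, D) P then (1 : ℝ) else 0) +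
    (if K2 (gs n d) A τ (i, D) P then (1 : ℝ) else 0) with hg
  have hg0 : ∀ τ, 0 ≤ g τ := by
    intro τ; simp only [hg]; split_ifs <;> norm_num
  set s : Finset (Fin n) := (Finset.Icc m ((D : ℕ) - m)).attachFin (fun k hk => by
    have := (Finset.mem_Icc.1 hk).2
    omega) with hs
  have hsm : ∀ a : Fin n, a ∈ s ↔ m ≤ (a : ℕ) ∧ (a : ℕ) ≤ (D : ℕ) - m := by
    intro a; simp [hs, Finset.mem_attachFin]
  have hcard : s.card = ((D : ℕ) - m) + 1 - m := by
    rw [hs, Finset.card_attachFin, Nat.card_Icc]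
  have hDs : D ∉ s := by
    rw [hsm]; omega
  -- restrict the sum
  have h5 : ∑ a ∈ insert D s, g (i, a) ≤
      ∑ τ ∈ Finset.univ.filter (fun τ : Fin d × Fin n => m ≤ (τ.2 : ℕ) ∧ (τ.2 : ℕ) < L), g τ := by
    rw [← Finset.sum_image (f := g) (g := fun a : Fin n => (i, a)) (s := insert D s)
      (by intro a _ b _ hab; exact (Prod.mk.inj hab).2)]
    refine Finset.sum_le_sum_of_subset_of_nonneg ?_ (fun τ _ _ => hg0 τ)
    intro τ hτ
    rw [Finset.mem_image] at hτ
    obtain ⟨a, ha, rfl⟩ := hτ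
    rw [Finset.mem_filter]
    refine ⟨Finset.mem_univ _, ?_⟩
    rw [Finset.mem_insert, hsm] at ha
    rcases ha with rfl | ha
    · simp only; omega
    · simp only; omega
  refine le_trans ?_ h5
  rw [Finset.sum_insert hDs]
  have h6 : g (i, D) = 2 := by
    have hm' : m ≤ (D : ℕ) := by omega
    have e1 : K1 (gs n d) A (i, D) (i, D) P := by
      refine hk1 D hm' le_rfl ?_
      rw [sub_self, gs_pi, add_zero, Function.update_eq_self]
      exact hPA
    have e2 : K2 (gs n d) A (i, D) (i, D) P := hk2 D hm' le_rfl hQ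
    simp only [hg, e1, e2, if_true]; norm_num
  have h7 : (s.card : ℝ) ≤ ∑ a ∈ s, g (i, a) := by
    have h8 : ∑ a ∈ s, ((if (gs n d).π (i, D - a) P ∈ A then (1 : ℝ) else 0) +
        (if (gs n d).π (i, a) P ∉ A then (1 : ℝ) else 0)) ≤ ∑ a ∈ s, g (i, a) := by
      refine Finset.sum_le_sum fun a ha => ?_
      rw [hsm] at ha
      simp only [hg]
      refine add_le_add ?_ ?_
      · by_cases h : (gs n d).π (i, D - a) P ∈ A
        · have := hk1 a ha.1 (by omega) h
          simp only [h, this, if_true]; exact le_rfl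
        · simp only [h, if_false]; split_ifs <;> norm_num
      · by_cases h : (gs n d).π (i, a) P ∉ A
        · have := hk2 a ha.1 (by omega) h
          simp only [this, if_true]; split_ifs <;> norm_num
        · simp only [h, if_false]; split_ifs <;> norm_num
    refine le_trans ?_ h8
    rw [Finset.sum_add_distrib]
    have h9 : ∑ a ∈ s, (if (gs n d).π (i, D - a) P ∈ A then (1 : ℝ) else 0) =
        ∑ a ∈ s, (if (gs n d).π (i, a) P ∈ A then (1 : ℝ) else 0) := by
      refine Finset.sum_nbij' (fun a => D - a) (fun a => D - a) ?_ ?_ ?_ ?_ ?_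
      · intro a ha
        rw [hsm] at ha ⊢
        rw [hsub a (by omega)]; omega
      · intro a ha
        rw [hsm] at ha ⊢
        rw [hsub a (by omega)]; omega
      · intro a _; exact sub_sub_cancel D a
      · intro a _; exact sub_sub_cancel D a
      · intro a _; rfl
    rw [h9, ← Finset.sum_add_distrib, Finset.card_eq_sum_ones, Nat.cast_sum]
    refine Finset.sum_le_sum fun a _ => ?_
    by_cases h : (gs n d).π (i, a) P ∈ A <;> simp [h]
  rw [h6]
  have h10 : (L : ℝ) ≤ 4 * ((s.card : ℝ) + 2) := by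
    rw [hcard]
    have : L ≤ 4 * (((D : ℕ) - m) + 1 - m + 2) := by omega
    exact_mod_cast this
  linarith

end Pool.Agent.Q90.HG
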