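import Pool.Agent.Q90.HG.Cov

set_option autoImplicit false

/-!
Project HG: one stage of the scale by scale argument.
-/

namespace Pool.Agent.Q90.HG

namespace StageAux

variable {V I : Type} [Fintype V] [Fintype I] {S : Sys V I}

theorem spl_one (A : Set V) : Spl S A (fun _ _ => 1) :=
  ⟨fun _ _ => zero_le_one, fun _ _ _ => by norm_num⟩

theorem cost_nonneg (c : I → ℝ) (v : I → V → ℝ) : 0 ≤ cost c v :=
  Finset.sum_nonneg fun x _ => Real.sqrt_nonneg _

theorem le_Phi {c : I → ℝ} {A : Set V} {a : ℝ} (h : ∀ v, Spl S A v → a ≤ cost c v) :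
    a ≤ Phi S c A := by
  refine le_csInf ⟨_, _, spl_one A, rfl⟩ ?_
  rintro r ⟨v, hv, rfl⟩
  exact h v hv

theorem le_mul_Phi {c : I → ℝ} {A : Set V} {a k : ℝ} (hk : 0 ≤ k)
    (h : ∀ v, Spl S A v → a ≤ k * cost c v) : a ≤ k * Phi S c A := by
  rcases hk.eq_or_lt with rfl | hk
  · have := h _ (spl_one A)
    simpa using this
  · rw [mul_comm, ← div_le_iff₀ hk]
    refine le_Phi fun v hv => ?_
    rw [div_le_iff₀ hk, mul_comm]
    exact h v hv

theorem cost_mono {c c' : I → ℝ} (h : ∀ ρ, c ρ ≤ c' ρ) (v : I → V → ℝ) :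
    cost c v ≤ cost c' v :=
  Finset.sum_le_sum fun x _ => Real.sqrt_le_sqrt
    (Finset.sum_le_sum fun ρ _ => mul_le_mul_of_nonneg_right (h ρ) (sq_nonneg _))

theorem Phi_mono {c c' : I → ℝ} (h : ∀ ρ, c ρ ≤ c' ρ) (A : Set V) :
    Phi S c A ≤ Phi S c' A :=
  le_Phi fun v hv => (Phi_le hv).trans (cost_mono h v)

theorem cost_smul {c : I → ℝ} {k : ℝ} (hk : 0 ≤ k) (v : I → V → ℝ) :
    cost (fun ρ => k * c ρ) v = Real.sqrt k * cost c v := by
  unfold cost
  rw [Finset.mul_sum]
  refine Finset.sum_congr rfl fun x _ => ?_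
  rw [← Real.sqrt_mul hk, Finset.mul_sum]
  congr 1
  exact Finset.sum_congr rfl fun ρ _ => by ring

end StageAux

open StageAux

open Classical in
theorem t_stage (hm : S_mov) (hs : S_super) (hl : S_long) : S_stage := by
  intro V I _ _ S J R C hC hown w hw L hL hwR hJR hcnt G hG0 hG1 hG2 b hb hGJ A hA
  have hL0 : 0 < L := by linarith
  set M : ℝ := 2 * (R.card : ℝ) + 1 with hM
  have hM1 : 1 ≤ M := by rw [hM]; linarith [Nat.cast_nonneg (α := ℝ) R.card]
  have hM0 : 0 < M := by linarith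
  set p : I → ℝ := fun τ => if τ ∈ R then 1 / (M * L) else 0 with hp
  have hp0 : ∀ τ, 0 ≤ p τ := by
    intro τ; simp only [hp]; split_ifs
    · positivity
    · exact le_rfl
  have hPr : Pr p := by
    refine ⟨hp0, ?_⟩
    have h1 : ∑ τ, p τ = (R.card : ℝ) * (1 / (M * L)) := by
      simp only [hp]
      rw [Finset.sum_ite_mem, Finset.univ_inter, Finset.sum_const, nsmul_eq_mul]
    rw [h1, mul_one_div, div_le_iff₀ (by positivity)]
    have : M ≤ M * L := le_mul_of_one_le_right hM0.le hL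
    have h2 : (R.card : ℝ) ≤ 1 / 2 * M := by rw [hM]; linarith
    linarith
  set lam : ℝ := 1 - 1 / (8 * M) with hlam
  have hlam0 : 0 < lam := by
    have : 1 / (8 * M) ≤ 1 / 8 := by
      apply one_div_le_one_div_of_le <;> linarith
    rw [hlam]; linarith
  set ck : ℕ → I → ℝ := fun k ρ => if ρ ∈ J then w ρ / lam ^ k else w ρ with hck
  have hck0 : ∀ k ρ, 0 ≤ ck k ρ := by
    intro k ρ; simp only [hck]; split_ifs
    · exact div_nonneg (hw ρ) (pow_nonneg hlam0.le _)
    · exact hw ρ
  have hKnn : ∀ (B : Set V) (ρ : I) (P : V) (τ : I), 0 ≤ p τ / 2 *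
      ((if K1 S B τ ρ P then (1 : ℝ) else 0) + (if K2 S B τ ρ P then (1 : ℝ) else 0)) := by
    intro B ρ P τ
    refine mul_nonneg (by linarith [hp0 τ]) ?_
    split_ifs <;> norm_num
  have hsup : ∀ k, ∀ B ∈ C, T S p (Phi S (ck (k + 1))) B ≤ Phi S (ck k) B := by
    intro k B hB
    refine hs V I S p hPr (ck k) (ck (k + 1)) (hck0 k) (hck0 (k + 1)) B ?_
    intro ρ P hP
    by_cases hρ : ρ ∈ J
    · have h1 := hcnt B hB ρ hρ P hP
      have h2 : 1 / (8 * M) ≤ ∑ τ, p τ / 2 * ((if K1 S B τ ρ P then (1 : ℝ) else 0) +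
          (if K2 S B τ ρ P then (1 : ℝ) else 0)) := by
        calc 1 / (8 * M) = 1 / (2 * M * L) * (L / 4) := by field_simp; ring
          _ ≤ 1 / (2 * M * L) * ∑ τ ∈ R, ((if K1 S B τ ρ P then (1 : ℝ) else 0) +
              (if K2 S B τ ρ P then (1 : ℝ) else 0)) :=
            mul_le_mul_of_nonneg_left h1 (by positivity)
          _ = ∑ τ ∈ R, p τ / 2 * ((if K1 S B τ ρ P then (1 : ℝ) else 0) +
              (if K2 S B τ ρ P then (1 : ℝ) else 0)) := by
            rw [Finset.mul_sum]
            refine Finset.sum_congr rfl fun τ hτ => ?_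
            simp only [hp, hτ, if_true]
            congr 1
            field_simp
          _ ≤ _ := Finset.sum_le_sum_of_subset_of_nonneg (Finset.subset_univ _)
            (fun τ _ _ => hKnn B ρ P τ)
      simp only [hck, hρ, if_true]
      have h3 : w ρ / lam ^ (k + 1) * lam = w ρ / lam ^ k := by
        rw [pow_succ]; field_simp
      rw [← h3]
      refine mul_le_mul_of_nonneg_left ?_ (div_nonneg (hw ρ) (pow_nonneg hlam0.le _))
      rw [hlam]; linarith
    · simp only [hck, hρ, if_false]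
      have h4 := Finset.sum_nonneg (fun τ (_ : τ ∈ Finset.univ) => hKnn B ρ P τ)
      nlinarith [hw ρ]
  have hiter : ∀ N k, ∀ B ∈ C, ((T S p)^[N] (Phi S (ck (k + N)))) B ≤ Phi S (ck k) B := by
    intro N
    induction N with
    | zero => intro k B _; exact le_rfl
    | succ N ih =>
      intro k B hB
      rw [Function.iterate_succ_apply]
      exact (iter_mono_on hPr hC (fun B' hB' => hsup (k + N) B' hB') N B hB).trans (ih k B hB)
  have hw1 : ∀ B, T S p (Phi S w) B ≤ Phi S w B := by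
    intro B
    refine hs V I S p hPr w w hw hw B ?_
    intro ρ P _
    have h4 := Finset.sum_nonneg (fun τ (_ : τ ∈ Finset.univ) => hKnn B ρ P τ)
    nlinarith [hw ρ]
  have hw2 : ∀ N B, ((T S p)^[N] (Phi S w)) B ≤ Phi S w B := by
    intro N
    induction N with
    | zero => intro B; exact le_rfl
    | succ N ih =>
      intro B
      rw [Function.iterate_succ_apply]
      exact (iter_mono hPr hw1 N B).trans (ih B)
  -- the number of steps
  have hlog : 0 ≤ Real.log L := Real.log_nonneg hL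
  set N : ℕ := ⌈8 * M * Real.log L⌉₊ with hN
  have hN1 : 8 * M * Real.log L ≤ N := Nat.le_ceil _
  have hN2 : (N : ℝ) ≤ 8 * M * Real.log L + 1 := (Nat.ceil_lt_add_one (by positivity)).le
  have hlamN : lam ^ N ≤ 1 / L := by
    have h1 : lam ≤ Real.exp (-(1 / (8 * M))) := by
      have := Real.add_one_le_exp (-(1 / (8 * M)))
      rw [hlam]; linarith
    have h2 : lam ^ N ≤ Real.exp (-(1 / (8 * M))) ^ N := pow_le_pow_left₀ hlam0.le h1 N
    rw [← Real.exp_nat_mul] at h2
    refine h2.trans ?_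
    have h3 : (N : ℝ) * -(1 / (8 * M)) ≤ -Real.log L := by
      have h4 : Real.log L = 8 * M * Real.log L / (8 * M) :=
        (mul_div_cancel_left₀ _ (mul_pos (by norm_num) hM0).ne').symm
      have h5 : 8 * M * Real.log L / (8 * M) ≤ (N : ℝ) / (8 * M) :=
        div_le_div_of_nonneg_right hN1 (mul_pos (by norm_num) hM0).le
      have h6 : (N : ℝ) * -(1 / (8 * M)) = -((N : ℝ) / (8 * M)) := by ring
      rw [h6]; linarith
    calc Real.exp ((N : ℝ) * -(1 / (8 * M))) ≤ Real.exp (-Real.log L) := Real.exp_le_exp.2 h3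
      _ = 1 / L := by rw [Real.exp_neg, Real.exp_log hL0, one_div]
  have hJle : ∀ ρ, (if ρ ∈ J then (1 : ℝ) else 0) ≤ ck N ρ := by
    intro ρ
    simp only [hck]
    split_ifs with hρ
    · have h1 := hwR ρ (hJR hρ)
      rw [le_div_iff₀ (pow_pos hlam0 N), one_mul]
      exact hlamN.trans h1
    · exact hw ρ
  have hlong : ((T S p)^[N] (Phi S (fun ρ => if ρ ∈ J then 1 else 0))) A ≤ Phi S w A := by
    have h1 := iter_mono (S := S) hPr (F := Phi S (fun ρ => if ρ ∈ J then 1 else 0))
      (G := Phi S (ck N)) (fun B => Phi_mono hJle B) N A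
    have h2 := hiter N 0 A hA
    rw [zero_add] at h2
    have h3 : ck 0 = w := by
      funext ρ
      show (if ρ ∈ J then w ρ / lam ^ 0 else w ρ) = w ρ
      rw [pow_zero, div_one, ite_self]
    rw [h3] at h2
    exact h1.trans h2
  -- the movement
  have hmov : ((T S p)^[N] (sd A)) A ≤ 6 * Real.sqrt (8 * Real.log L + 1) * Phi S w A := by
    refine le_mul_Phi (by positivity) fun v hv => ?_
    refine (hm V I S p hPr N A v hv).trans ?_
    have h1 : cost p v ≤ Real.sqrt (1 / M) * cost w v := by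
      rw [← cost_smul (by positivity)]
      refine cost_mono (fun ρ => ?_) v
      simp only [hp]
      split_ifs with hρ
      · have h2 := mul_le_mul_of_nonneg_left (hwR ρ hρ) (one_div_nonneg.2 hM0.le)
        rw [one_div_mul_one_div] at h2
        exact h2
      · exact mul_nonneg (one_div_nonneg.2 hM0.le) (hw ρ)
    have h2 : Real.sqrt N * Real.sqrt (1 / M) ≤ Real.sqrt (8 * Real.log L + 1) := by
      rw [← Real.sqrt_mul (Nat.cast_nonneg N)]
      refine Real.sqrt_le_sqrt ?_
      rw [mul_one_div, div_le_iff₀ hM0]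
      nlinarith
    calc 6 * Real.sqrt N * cost p v ≤ 6 * Real.sqrt N * (Real.sqrt (1 / M) * cost w v) :=
          mul_le_mul_of_nonneg_left h1 (by positivity)
      _ = 6 * (Real.sqrt N * Real.sqrt (1 / M)) * cost w v := by ring
      _ ≤ 6 * Real.sqrt (8 * Real.log L + 1) * cost w v := by
          refine mul_le_mul_of_nonneg_right ?_ (cost_nonneg w v)
          exact mul_le_mul_of_nonneg_left h2 (by norm_num)
  -- conclusion
  have hGA : G A ≤ ((T S p)^[N] (sd A)) A + ((T S p)^[N] G) A := by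
    rw [← iter_add]
    have h1 := iter_mono (S := S) hPr (F := fun _ => G A) (G := fun B => sd A B + G B)
      (fun B => hG2 A B) N A
    rw [iter_const] at h1
    exact h1
  have hTG : ((T S p)^[N] G) A ≤ b * Phi S w A + 16 * Phi S w A := by
    have h1 := iter_mono_on (S := S) hPr hC (F := G)
      (G := fun B => b * Phi S w B + 16 * Phi S (fun ρ => if ρ ∈ J then 1 else 0) B)
      (fun B hB => hl V I S J C hC hown w hw G hG0 hG1 hG2 b hb hGJ B hB) N A hA
    rw [iter_add, iter_mul, iter_mul] at h1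
    have h2 := mul_le_mul_of_nonneg_left (hw2 N A) hb
    linarith
  calc G A ≤ ((T S p)^[N] (sd A)) A + ((T S p)^[N] G) A := hGA
    _ ≤ 6 * Real.sqrt (8 * Real.log L + 1) * Phi S w A +
        (b * Phi S w A + 16 * Phi S w A) := add_le_add hmov hTG
    _ = _ := by ring

end Pool.Agent.Q90.HG
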