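import Pool.Agent.Q90.HG.Bas

set_option autoImplicit false

/-!
Project HG: the least cost is a supermartingale (`t_super`), and elementary facts on `Phi`.
-/

namespace Pool.Agent.Q90.HG

namespace Ax

section Cost

variable {V I : Type} [Fintype V] [Fintype I] {S : Sys V I}

theorem cost_nonneg (c : I → ℝ) (v : I → V → ℝ) : 0 ≤ cost c v :=
  Finset.sum_nonneg fun _ _ => Real.sqrt_nonneg _

theorem Phi_le (c : I → ℝ) {A : Set V} {v : I → V → ℝ} (hv : Spl S A v) :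
    Phi S c A ≤ cost c v :=
  csInf_le ⟨0, by rintro r ⟨w, _, rfl⟩; exact cost_nonneg c w⟩ ⟨v, hv, rfl⟩

theorem le_Phi {c : I → ℝ} {A : Set V} {r : ℝ} (h : ∀ v, Spl S A v → r ≤ cost c v) :
    r ≤ Phi S c A := by
  refine le_csInf ⟨cost c fun _ _ => 1, fun _ _ => 1, ⟨fun _ _ => by norm_num,
    fun _ _ _ => by norm_num⟩, rfl⟩ ?_
  rintro s ⟨v, hv, rfl⟩
  exact h v hv

theorem Phi_nonneg (c : I → ℝ) (A : Set V) : 0 ≤ Phi S c A :=
  le_Phi fun v _ => cost_nonneg c v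

/-- The cost is monotone in the weights. -/
theorem cost_mono {c c' : I → ℝ} (h : ∀ ρ, c ρ ≤ c' ρ) (v : I → V → ℝ) :
    cost c v ≤ cost c' v := by
  refine Finset.sum_le_sum fun x _ => Real.sqrt_le_sqrt (Finset.sum_le_sum fun ρ _ => ?_)
  exact mul_le_mul_of_nonneg_right (h ρ) (sq_nonneg _)

theorem Phi_mono {c c' : I → ℝ} (h : ∀ ρ, c ρ ≤ c' ρ) (A : Set V) :
    Phi S c A ≤ Phi S c' A :=
  le_Phi fun v hv => (Phi_le c hv).trans (cost_mono h v)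

/-- Scaling of the cost. -/
theorem cost_scale {t : ℝ} (ht : 0 ≤ t) (c : I → ℝ) (v : I → V → ℝ) :
    cost (fun ρ => t * c ρ) v = Real.sqrt t * cost c v := by
  unfold cost
  rw [Finset.mul_sum]
  refine Finset.sum_congr rfl fun x _ => ?_
  rw [← Real.sqrt_mul ht, Finset.mul_sum]
  congr 1
  exact Finset.sum_congr rfl fun ρ _ => by ring

theorem Phi_scale {t : ℝ} (ht : 0 ≤ t) (c : I → ℝ) (A : Set V) :
    Phi S (fun ρ => t * c ρ) A ≤ Real.sqrt t * Phi S c A := by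
  rcases eq_or_lt_of_le (Real.sqrt_nonneg t) with h0 | h0
  · have h1 := Phi_le (S := S) (A := A) (fun ρ => t * c ρ) (v := fun _ _ => 1)
      ⟨fun _ _ => by norm_num, fun _ _ _ => by norm_num⟩
    rw [cost_scale ht, ← h0, zero_mul] at h1
    rw [← h0, zero_mul]
    exact h1
  · rw [← div_le_iff₀' h0]
    refine le_Phi fun v hv => ?_
    rw [div_le_iff₀' h0, ← cost_scale ht]
    exact Phi_le _ hv

end Cost

theorem sqrt_jensen {I : Type} [Fintype I] {p : I → ℝ} (hp : Pr p) {F : ℝ} {F₁ F₂ : I → ℝ}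
    (hF : 0 ≤ F) (hF₁ : ∀ τ, 0 ≤ F₁ τ) (hF₂ : ∀ τ, 0 ≤ F₂ τ) :
    (1 - ∑ τ, p τ) * Real.sqrt F + ∑ τ, p τ / 2 * (Real.sqrt (F₁ τ) + Real.sqrt (F₂ τ)) ≤
      Real.sqrt ((1 - ∑ τ, p τ) * F + ∑ τ, p τ / 2 * (F₁ τ + F₂ τ)) := by
  set s := (1 - ∑ τ, p τ) * Real.sqrt F +
    ∑ τ, p τ / 2 * (Real.sqrt (F₁ τ) + Real.sqrt (F₂ τ)) with hs
  refine Real.le_sqrt_of_sq_le ?_
  have h0 : 0 ≤ (1 - ∑ τ, p τ) := by linarith [hp.2]
  have h1 : 0 ≤ (1 - ∑ τ, p τ) * (Real.sqrt F - s) ^ 2 +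
      ∑ τ, p τ / 2 * ((Real.sqrt (F₁ τ) - s) ^ 2 + (Real.sqrt (F₂ τ) - s) ^ 2) :=
    add_nonneg (mul_nonneg h0 (sq_nonneg _)) (Finset.sum_nonneg fun τ _ =>
      mul_nonneg (by linarith [hp.1 τ]) (by positivity))
  have h2 : ∑ τ, p τ / 2 * ((Real.sqrt (F₁ τ) - s) ^ 2 + (Real.sqrt (F₂ τ) - s) ^ 2) =
      ∑ τ, p τ / 2 * (F₁ τ + F₂ τ) -
        2 * s * ∑ τ, p τ / 2 * (Real.sqrt (F₁ τ) + Real.sqrt (F₂ τ)) +
        (∑ τ, p τ) * s ^ 2 := by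
    rw [Finset.mul_sum, Finset.sum_mul, ← Finset.sum_sub_distrib, ← Finset.sum_add_distrib]
    refine Finset.sum_congr rfl fun τ _ => ?_
    have e1 := Real.sq_sqrt (hF₁ τ)
    have e2 := Real.sq_sqrt (hF₂ τ)
    calc p τ / 2 * ((Real.sqrt (F₁ τ) - s) ^ 2 + (Real.sqrt (F₂ τ) - s) ^ 2)
        = p τ / 2 * (Real.sqrt (F₁ τ) ^ 2 + Real.sqrt (F₂ τ) ^ 2) -
          2 * s * (p τ / 2 * (Real.sqrt (F₁ τ) + Real.sqrt (F₂ τ))) + p τ * s ^ 2 := by ring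
      _ = _ := by rw [e1, e2]
  have h3 : (1 - ∑ τ, p τ) * (Real.sqrt F - s) ^ 2 = (1 - ∑ τ, p τ) * F -
      2 * s * ((1 - ∑ τ, p τ) * Real.sqrt F) + (1 - ∑ τ, p τ) * s ^ 2 := by
    have e1 := Real.sq_sqrt hF
    calc (1 - ∑ τ, p τ) * (Real.sqrt F - s) ^ 2
        = (1 - ∑ τ, p τ) * Real.sqrt F ^ 2 -
          2 * s * ((1 - ∑ τ, p τ) * Real.sqrt F) + (1 - ∑ τ, p τ) * s ^ 2 := by ring
      _ = _ := by rw [e1]
  rw [h2, h3] at h1
  have h4 : 2 * s * ((1 - ∑ τ, p τ) * Real.sqrt F) +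
      2 * s * ∑ τ, p τ / 2 * (Real.sqrt (F₁ τ) + Real.sqrt (F₂ τ)) = 2 * s * s := by
    rw [← mul_add, ← hs]
  nlinarith

end Ax

open Ax

open Classical in
theorem t_super (h : S_cov) : S_super := by
  intro V I _ _ S p hp c c' hc hc' A hA
  refine le_Phi fun v hv => ?_
  set v' : I → V → ℝ := fun ρ x => if Vi S A ρ (bs S A ρ x) then v ρ x else 0 with hv'
  have hspl : Spl S A v' := by
    refine ⟨fun ρ x => ?_, fun ρ P hP => ?_⟩
    · simp only [hv']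
      split_ifs
      · exact hv.1 ρ x
      · exact le_refl _
    · have e1 : bs S A ρ P = P := by simp [bs, hP.2.1]
      have e2 : bs S A ρ (S.π ρ P) = P := by simp [bs, hP.2.2]
      simp only [hv', e1, e2, if_pos hP]
      exact hv.2 ρ P hP
  have hle : cost c v' ≤ cost c v := by
    refine Finset.sum_le_sum fun x _ => Real.sqrt_le_sqrt (Finset.sum_le_sum fun ρ _ => ?_)
    refine mul_le_mul_of_nonneg_left ?_ (hc ρ)
    simp only [hv']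
    split_ifs
    · exact le_refl _
    · nlinarith [sq_nonneg (v ρ x)]
  refine le_trans ?_ hle
  have h0 : 0 ≤ (1 - ∑ τ, p τ) := by linarith [hp.2]
  have h1 : T S p (Phi S c') A ≤ (1 - ∑ τ, p τ) * cost c' v' + ∑ τ, p τ / 2 *
      (cost c' (fun ρ x => if K1 S A τ ρ (bs S A ρ x) then 0 else v' ρ x) +
        cost c' (fun ρ x => if K2 S A τ ρ (bs S A ρ x) then 0 else v' ρ x)) := by
    simp only [T]
    refine add_le_add (mul_le_mul_of_nonneg_left (Phi_le c' hspl) h0)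
      (Finset.sum_le_sum fun τ _ => ?_)
    exact mul_le_mul_of_nonneg_left (h V I S c' hc' A v' hspl τ) (by linarith [hp.1 τ])
  refine h1.trans ?_
  unfold cost
  have h2 : (1 - ∑ τ, p τ) * ∑ x, Real.sqrt (∑ ρ, c' ρ * v' ρ x ^ 2) + ∑ τ, p τ / 2 *
      (∑ x, Real.sqrt (∑ ρ, c' ρ * (if K1 S A τ ρ (bs S A ρ x) then 0 else v' ρ x) ^ 2) +
        ∑ x, Real.sqrt (∑ ρ, c' ρ * (if K2 S A τ ρ (bs S A ρ x) then 0 else v' ρ x) ^ 2)) =
      ∑ x, ((1 - ∑ τ, p τ) * Real.sqrt (∑ ρ, c' ρ * v' ρ x ^ 2) + ∑ τ, p τ / 2 *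
        (Real.sqrt (∑ ρ, c' ρ * (if K1 S A τ ρ (bs S A ρ x) then 0 else v' ρ x) ^ 2) +
          Real.sqrt (∑ ρ, c' ρ * (if K2 S A τ ρ (bs S A ρ x) then 0 else v' ρ x) ^ 2))) := by
    rw [Finset.sum_add_distrib, Finset.mul_sum, Finset.sum_comm]
    congr 1
    refine Finset.sum_congr rfl fun τ _ => ?_
    rw [← Finset.mul_sum, Finset.sum_add_distrib]
  rw [h2]
  refine Finset.sum_le_sum fun x _ => ?_
  refine (sqrt_jensen hp (F := ∑ ρ, c' ρ * v' ρ x ^ 2)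
    (F₁ := fun τ => ∑ ρ, c' ρ * (if K1 S A τ ρ (bs S A ρ x) then 0 else v' ρ x) ^ 2)
    (F₂ := fun τ => ∑ ρ, c' ρ * (if K2 S A τ ρ (bs S A ρ x) then 0 else v' ρ x) ^ 2)
    (Finset.sum_nonneg fun ρ _ => mul_nonneg (hc' ρ) (sq_nonneg _))
    (fun τ => Finset.sum_nonneg fun ρ _ => mul_nonneg (hc' ρ) (sq_nonneg _))
    (fun τ => Finset.sum_nonneg fun ρ _ => mul_nonneg (hc' ρ) (sq_nonneg _))).trans ?_
  refine Real.sqrt_le_sqrt ?_
  have h3 : (1 - ∑ τ, p τ) * (∑ ρ, c' ρ * v' ρ x ^ 2) + ∑ τ, p τ / 2 *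
      ((∑ ρ, c' ρ * (if K1 S A τ ρ (bs S A ρ x) then 0 else v' ρ x) ^ 2) +
        ∑ ρ, c' ρ * (if K2 S A τ ρ (bs S A ρ x) then 0 else v' ρ x) ^ 2) =
      ∑ ρ, c' ρ * (1 - ∑ τ, p τ / 2 * ((if K1 S A τ ρ (bs S A ρ x) then (1 : ℝ) else 0) +
        (if K2 S A τ ρ (bs S A ρ x) then (1 : ℝ) else 0))) * v' ρ x ^ 2 := by
    have h4 : ∀ τ, p τ / 2 *
        ((∑ ρ, c' ρ * (if K1 S A τ ρ (bs S A ρ x) then 0 else v' ρ x) ^ 2) +
          ∑ ρ, c' ρ * (if K2 S A τ ρ (bs S A ρ x) then 0 else v' ρ x) ^ 2) =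
        ∑ ρ, (p τ * (c' ρ * v' ρ x ^ 2) - p τ / 2 *
          ((if K1 S A τ ρ (bs S A ρ x) then (1 : ℝ) else 0) +
            (if K2 S A τ ρ (bs S A ρ x) then (1 : ℝ) else 0)) * (c' ρ * v' ρ x ^ 2)) := by
      intro τ
      rw [← Finset.sum_add_distrib, Finset.mul_sum]
      refine Finset.sum_congr rfl fun ρ _ => ?_
      split_ifs <;> ring
    rw [Finset.sum_congr rfl fun τ _ => h4 τ, Finset.sum_comm, Finset.mul_sum,
      ← Finset.sum_add_distrib]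
    refine Finset.sum_congr rfl fun ρ _ => ?_
    rw [Finset.sum_sub_distrib, ← Finset.sum_mul, ← Finset.sum_mul]
    ring
  rw [h3]
  refine Finset.sum_le_sum fun ρ _ => ?_
  by_cases hP : Vi S A ρ (bs S A ρ x)
  · exact mul_le_mul_of_nonneg_right (hA ρ _ hP) (sq_nonneg _)
  · have : v' ρ x = 0 := by simp [hv', hP]
    rw [this]
    simp

end Pool.Agent.Q90.HG
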