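import Pool.Agent.Q90.HG.GStm

set_option autoImplicit false

/-!
Project HG: the colouring gives a split, and the final result.
-/

namespace Pool.Agent.Q90.HG

open Classical in
/-- The split given by a colouring. -/
noncomputable def vch {n d : ℕ} [NeZero n] (f : Pt n d → Bool) (χ : Sym2 (Pt n d) → Bool)
    (ρ : Fin d × Fin n) (x : Pt n d) : ℝ :=
  if f x = true then
    (if Vi (gs n d) {y | f y = true} ρ x ∧ χ s(x, (gs n d).π ρ x) = true then 1 else 0)
  else
    (if Vi (gs n d) {y | f y = true} ρ (((gs n d).π ρ).symm x) ∧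
      χ s(((gs n d).π ρ).symm x, x) = false then 1 else 0)

theorem vch_nonneg {n d : ℕ} [NeZero n] (f : Pt n d → Bool) (χ : Sym2 (Pt n d) → Bool)
    (ρ : Fin d × Fin n) (x : Pt n d) : 0 ≤ vch f χ ρ x := by
  unfold vch; split_ifs <;> norm_num

theorem vch_spl {n d : ℕ} [NeZero n] (f : Pt n d → Bool) (χ : Sym2 (Pt n d) → Bool) :
    Spl (gs n d) {y | f y = true} (vch f χ) := by
  refine ⟨fun ρ x => vch_nonneg f χ ρ x, ?_⟩
  intro ρ x hx
  have h1 : f x = true := hx.2.1
  have h2 : ¬ f ((gs n d).π ρ x) = true := hx.2.2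
  have e1 : vch f χ ρ x = if χ s(x, (gs n d).π ρ x) = true then 1 else 0 := by
    unfold vch
    rw [if_pos h1]
    by_cases hc : χ s(x, (gs n d).π ρ x) = true
    · rw [if_pos ⟨hx, hc⟩, if_pos hc]
    · rw [if_neg (fun h => hc h.2), if_neg hc]
  have e2 : vch f χ ρ ((gs n d).π ρ x) = if χ s(x, (gs n d).π ρ x) = true then 0 else 1 := by
    unfold vch
    rw [if_neg h2, Equiv.symm_apply_apply]
    by_cases hc : χ s(x, (gs n d).π ρ x) = true
    · rw [if_neg (fun h => by rw [hc] at h; exact absurd h.2 (by decide)), if_pos hc]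
    · rw [if_pos ⟨hx, by simpa using hc⟩, if_neg hc]
  rw [e1, e2]
  split_ifs <;> norm_num

open Classical in
/-- One term of the weighted influence. -/
noncomputable def ptm {n d : ℕ} (f : Pt n d → Bool) (χ : Sym2 (Pt n d) → Bool) (x : Pt n d)
    (i : Fin d) (t : Fin n) : ℝ :=
  if (Viol f x (Function.update x i t) ∨ Viol f (Function.update x i t) x) ∧
      χ s(x, Function.update x i t) = f x then 1 / |((t : ℕ) : ℝ) - ((x i : ℕ) : ℝ)| else 0

theorem ptm_nonneg {n d : ℕ} (f : Pt n d → Bool) (χ : Sym2 (Pt n d) → Bool) (x : Pt n d)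
    (i : Fin d) (t : Fin n) : 0 ≤ ptm f χ x i t := by
  unfold ptm
  split_ifs
  · positivity
  · exact le_rfl

theorem psi_eq {n d : ℕ} (f : Pt n d → Bool) (χ : Sym2 (Pt n d) → Bool) (x : Pt n d)
    (i : Fin d) : psi f χ x i = ∑ t, ptm f χ x i t := rfl

theorem vch_sum {n d : ℕ} [NeZero n] (f : Pt n d → Bool) (χ : Sym2 (Pt n d) → Bool)
    (x : Pt n d) (i : Fin d) :
    ∑ a : Fin n, wt n d (i, a) * vch f χ (i, a) x ^ 2 ≤ psi f χ x i := by
  classical
  rw [psi_eq]
  by_cases hf : f x = true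
  · rw [← Equiv.sum_comp (Equiv.addLeft (x i)) (ptm f χ x i)]
    refine Finset.sum_le_sum fun a _ => ?_
    rw [Equiv.coe_addLeft]
    have hge := ptm_nonneg f χ x i (x i + a)
    by_cases hv : Vi (gs n d) {y | f y = true} (i, a) x ∧ χ s(x, (gs n d).π (i, a) x) = true
    · have e1 : vch f χ (i, a) x = 1 := by unfold vch; rw [if_pos hf, if_pos hv]
      obtain ⟨⟨hact, -, hy⟩, hchi⟩ := hv
      have hval : ((x i + a : Fin n) : ℕ) = (x i : ℕ) + (a : ℕ) := Fin.val_add_eq_of_add_lt hact
      have hle : x ≤ Function.update x i (x i + a) := by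
        intro j
        by_cases hj : j = i
        · subst hj
          rw [Function.update_self, Fin.le_def, hval]; omega
        · rw [Function.update_of_ne hj]
      have hy' : f (Function.update x i (x i + a)) = false := by
        have : ¬ f (Function.update x i (x i + a)) = true := hy
        simpa using this
      have hchi' : χ s(x, Function.update x i (x i + a)) = true := hchi
      unfold ptm
      rw [if_pos ⟨Or.inl ⟨hle, hf, hy'⟩, by rw [hchi', hf]⟩, e1, hval]
      have h3 : ((((x i : ℕ) + (a : ℕ) : ℕ)) : ℝ) - ((x i : ℕ) : ℝ) = ((a : ℕ) : ℝ) := by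
        push_cast; ring
      rw [h3, abs_of_nonneg (Nat.cast_nonneg _)]
      unfold wt
      simp
    · have e1 : vch f χ (i, a) x = 0 := by unfold vch; rw [if_pos hf, if_neg hv]
      rw [e1]
      simpa using hge
  · rw [← Equiv.sum_comp (Equiv.subLeft (x i)) (ptm f χ x i)]
    refine Finset.sum_le_sum fun a _ => ?_
    rw [Equiv.subLeft_apply]
    have hge := ptm_nonneg f χ x i (x i - a)
    have hsymm : ((gs n d).π (i, a)).symm x = Function.update x i (x i - a) := rfl
    by_cases hv : Vi (gs n d) {y | f y = true} (i, a) (((gs n d).π (i, a)).symm x) ∧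
        χ s(((gs n d).π (i, a)).symm x, x) = false
    · have e1 : vch f χ (i, a) x = 1 := by unfold vch; rw [if_neg hf, if_pos hv]
      rw [hsymm] at hv
      obtain ⟨⟨hact, hw, -⟩, hchi⟩ := hv
      have hact' : ((x i - a : Fin n) : ℕ) + (a : ℕ) < n := by
        have : (Function.update x i (x i - a) i : ℕ) + (a : ℕ) < n := hact
        rwa [Function.update_self] at this
      have hval : ((x i : Fin n) : ℕ) = ((x i - a : Fin n) : ℕ) + (a : ℕ) := by
        have h := Fin.val_add_eq_of_add_lt hact'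
        rwa [sub_add_cancel] at h
      have hle : Function.update x i (x i - a) ≤ x := by
        intro j
        by_cases hj : j = i
        · subst hj
          rw [Function.update_self, Fin.le_def]; omega
        · rw [Function.update_of_ne hj]
      have hf' : f x = false := by simpa using hf
      have hchi' : χ s(x, Function.update x i (x i - a)) = false := by
        rw [Sym2.eq_swap]; exact hchi
      unfold ptm
      rw [if_pos ⟨Or.inr ⟨hle, hw, hf'⟩, by rw [hchi', hf']⟩, e1]
      have h3 : (((x i - a : Fin n) : ℕ) : ℝ) - ((x i : ℕ) : ℝ) = -((a : ℕ) : ℝ) := by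
        have : ((x i : ℕ) : ℝ) = (((x i - a : Fin n) : ℕ) : ℝ) + ((a : ℕ) : ℝ) := by
          exact_mod_cast hval
        rw [this]; ring
      rw [h3, abs_neg, abs_of_nonneg (Nat.cast_nonneg _)]
      unfold wt
      simp
    · have e1 : vch f χ (i, a) x = 0 := by unfold vch; rw [if_neg hf, if_neg hv]
      rw [e1]
      simpa using hge

/-- HG-TR. -/
theorem t_tr : S_tr := by
  intro n d _ f χ
  have hn : (0 : ℝ) < (n : ℝ) ^ d := by
    have : 0 < n := Nat.pos_of_ne_zero (NeZero.ne n)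
    positivity
  have h1 : Phi (gs n d) (wt n d) {x | f x = true} ≤ cost (wt n d) (vch f χ) := by
    refine csInf_le ⟨0, ?_⟩ ⟨vch f χ, vch_spl f χ, rfl⟩
    rintro r ⟨v, -, rfl⟩
    exact Finset.sum_nonneg fun x _ => Real.sqrt_nonneg _
  refine h1.trans ?_
  have h2 : (n : ℝ) ^ d * TPsi f χ = ∑ x, Real.sqrt (∑ i, psi f χ x i) := by
    unfold TPsi; field_simp
  rw [h2]
  unfold cost
  refine Finset.sum_le_sum fun x _ => Real.sqrt_le_sqrt ?_
  rw [Fintype.sum_prod_type]
  exact Finset.sum_le_sum fun i _ => vch_sum f χ x i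

theorem TPsi_nonneg {n d : ℕ} (f : Pt n d → Bool) (χ : Sym2 (Pt n d) → Bool) : 0 ≤ TPsi f χ := by
  unfold TPsi
  exact div_nonneg (Finset.sum_nonneg fun x _ => Real.sqrt_nonneg _) (by positivity)

theorem num_bound {x : ℝ} (hx : 0.69 ≤ x) :
    4 * x * (6 * Real.sqrt (8 * x + 1) + 16) ≤ 200 * x ^ (3 / 2 : ℝ) := by
  have hx0 : 0 < x := by linarith
  have h1 : x ^ (3 / 2 : ℝ) = x * Real.sqrt x := by
    rw [Real.sqrt_eq_rpow]
    have : (3 / 2 : ℝ) = 1 + 1 / 2 := by norm_num
    rw [this, Real.rpow_add hx0, Real.rpow_one]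
  have h2 : Real.sqrt (8 * x + 1) ≤ 3.1 * Real.sqrt x := by
    have : (3.1 : ℝ) * Real.sqrt x = Real.sqrt (3.1 ^ 2 * x) := by
      rw [Real.sqrt_mul (by norm_num), Real.sqrt_sq (by norm_num)]
    rw [this]
    exact Real.sqrt_le_sqrt (by nlinarith)
  have h3 : (0.8 : ℝ) ≤ Real.sqrt x := by
    rw [show (0.8 : ℝ) = Real.sqrt (0.8 ^ 2) by rw [Real.sqrt_sq (by norm_num)]]
    exact Real.sqrt_le_sqrt (by nlinarith)
  rw [h1]
  have h4 : 6 * Real.sqrt (8 * x + 1) + 16 ≤ 50 * Real.sqrt x := by nlinarith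
  nlinarith [mul_le_mul_of_nonneg_left h4 (by linarith : (0 : ℝ) ≤ 4 * x)]

/-- HG-FIN. -/
theorem t_fin (hd : S_dist) (ht : S_tr) : S_fin := by
  classical
  intro n d hn hd1 f χ
  have : NeZero n := ⟨by omega⟩
  obtain ⟨B, hB, hle⟩ := hd n d hn {x | f x = true}
  have hnd : (0 : ℝ) < (n : ℝ) ^ d := by
    have : 0 < n := by omega
    positivity
  set g : Pt n d → Bool := fun x => decide (x ∈ B) with hg
  have hmono : Monotone g := by
    intro x y hxy
    by_cases hx : x ∈ B
    · have hy : y ∈ B := hB hxy hx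
      simp [hg, hx, hy]
    · simp [hg, hx]
  have hcard : ((Finset.univ.filter (fun x => f x ≠ g x)).card : ℝ) = sd {x | f x = true} B := by
    unfold sd
    rw [Finset.card_filter, Nat.cast_sum]
    refine Finset.sum_congr rfl fun x _ => ?_
    by_cases h1 : f x = true
    · by_cases h2 : x ∈ B
      · simp [mem, hg, h1, h2]
      · simp [mem, hg, h1, h2]
    · have h1' : f x = false := by simpa using h1
      by_cases h2 : x ∈ B
      · simp [mem, hg, h1', h2]
      · simp [mem, hg, h1', h2]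
  have h1 : eps f ≤ ((Finset.univ.filter (fun x => f x ≠ g x)).card : ℝ) / (n : ℝ) ^ d := by
    unfold eps
    refine csInf_le ⟨0, ?_⟩ ⟨g, hmono, ?_⟩
    · rintro r ⟨g', -, rfl⟩
      positivity
    · congr
  rw [hcard] at h1
  have h2 : sd {x | f x = true} B ≤
      200 * (Real.log n) ^ (3 / 2 : ℝ) * ((n : ℝ) ^ d * TPsi f χ) := by
    have hlog : 0.69 ≤ Real.log n := by
      have h := Real.log_le_log (by norm_num : (0 : ℝ) < 2) (by exact_mod_cast hn : (2 : ℝ) ≤ n)
      linarith [Real.log_two_gt_d9]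
    have h3 := num_bound hlog
    have h4 := ht n d f χ
    have h5 : 0 ≤ (n : ℝ) ^ d * TPsi f χ := mul_nonneg hnd.le (TPsi_nonneg f χ)
    have h6 : 0 ≤ 4 * Real.log n * (6 * Real.sqrt (8 * Real.log n + 1) + 16) := by
      have : 0 ≤ Real.log n := by linarith
      positivity
    calc sd {x | f x = true} B
        ≤ 4 * Real.log n * (6 * Real.sqrt (8 * Real.log n + 1) + 16) *
          Phi (gs n d) (wt n d) {x | f x = true} := hle
      _ ≤ 4 * Real.log n * (6 * Real.sqrt (8 * Real.log n + 1) + 16) *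
          ((n : ℝ) ^ d * TPsi f χ) := mul_le_mul_of_nonneg_left h4 h6
      _ ≤ 200 * (Real.log n) ^ (3 / 2 : ℝ) * ((n : ℝ) ^ d * TPsi f χ) :=
          mul_le_mul_of_nonneg_right h3 h5
  calc eps f ≤ sd {x | f x = true} B / (n : ℝ) ^ d := h1
    _ ≤ (200 * (Real.log n) ^ (3 / 2 : ℝ) * ((n : ℝ) ^ d * TPsi f χ)) / (n : ℝ) ^ d :=
        div_le_div_of_nonneg_right h2 hnd.le
    _ = 200 * (Real.log n) ^ (3 / 2 : ℝ) * TPsi f χ := by
        field_simp

end Pool.Agent.Q90.HG
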