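import Pool.Agent.Q90.HG.Bas

set_option autoImplicit false

/-!
Project HG: bound for the vector of the violation probabilities at a vertex.
-/

namespace Pool.Agent.Q90.HG

variable {V I : Type} [Fintype I] {S : Sys V I} {p : I → ℝ}

/-- One step variance. -/
theorem var_step (hp : Pr p) (Q : Set V → ℝ) (A : Set V) :
    1 / 2 * ∑ τ, p τ / 2 * ((Q (Up S τ A) - Q A) ^ 2 + (Q (Dn S τ A) - Q A) ^ 2) ≤
      T S p (fun B => Q B ^ 2) A - (T S p Q A) ^ 2 := by
  set a := Q A with ha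
  set m := ∑ τ, p τ / 2 * ((Q (Up S τ A) - a) + (Q (Dn S τ A) - a)) with hm
  set v := ∑ τ, p τ / 2 * ((Q (Up S τ A) - a) ^ 2 + (Q (Dn S τ A) - a) ^ 2) with hv
  have h1 : T S p Q A = a + m := by
    have e : ∑ τ, p τ / 2 * (Q (Up S τ A) + Q (Dn S τ A)) = m + (∑ τ, p τ) * a := by
      rw [hm, Finset.sum_mul, ← Finset.sum_add_distrib]
      exact Finset.sum_congr rfl fun τ _ => by ring
    simp only [T]
    rw [e, ← ha]; ring
  have h2 : T S p (fun B => Q B ^ 2) A = a ^ 2 + 2 * a * m + v := by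
    have e : ∑ τ, p τ / 2 * (Q (Up S τ A) ^ 2 + Q (Dn S τ A) ^ 2) =
        v + 2 * a * m + (∑ τ, p τ) * a ^ 2 := by
      rw [hm, hv, Finset.sum_mul, Finset.mul_sum, ← Finset.sum_add_distrib,
        ← Finset.sum_add_distrib]
      exact Finset.sum_congr rfl fun τ _ => by ring
    simp only [T]
    rw [e, ← ha]; ring
  have h3 : 2 * m ^ 2 ≤ v := by
    have h4 : 0 ≤ ∑ τ, p τ / 2 * ((Q (Up S τ A) - a - 2 * m) ^ 2 +
        (Q (Dn S τ A) - a - 2 * m) ^ 2) :=
      Finset.sum_nonneg fun τ _ => mul_nonneg (by linarith [hp.1 τ]) (by positivity)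
    have h5 : ∑ τ, p τ / 2 * ((Q (Up S τ A) - a - 2 * m) ^ 2 +
        (Q (Dn S τ A) - a - 2 * m) ^ 2) = v - 4 * m * m + (∑ τ, p τ) * (4 * m ^ 2) := by
      conv_rhs => rw [hv]
      have e : 4 * m * m = ∑ τ, 4 * m * (p τ / 2 * ((Q (Up S τ A) - a) + (Q (Dn S τ A) - a))) := by
        rw [← Finset.mul_sum]
      rw [e, Finset.sum_mul, ← Finset.sum_sub_distrib, ← Finset.sum_add_distrib]
      exact Finset.sum_congr rfl fun τ _ => by ring
    rw [h5] at h4
    nlinarith [hp.2, sq_nonneg m]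
  rw [h1, h2]
  nlinarith

theorem t_vec (h : S_sens) : S_vec := by
  intro V I _ S p hp N z A
  set sg := ∑ ρ, p ρ * ((((T S p)^[N] (vi S ρ z)) A) ^ 2 +
    (((T S p)^[N] (vi S ρ ((S.π ρ).symm z))) A) ^ 2) with hsg
  have hV : ∀ (m : ℕ) (B : Set V), ∑ ρ, p ρ / 4 * ((((T S p)^[m] (vi S ρ z)) B) ^ 2 +
      (((T S p)^[m] (vi S ρ ((S.π ρ).symm z))) B) ^ 2) ≤
      T S p (fun C => ((T S p)^[m] (mem z)) C ^ 2) B - (T S p ((T S p)^[m] (mem z)) B) ^ 2 := by
    intro m B
    refine le_trans ?_ (var_step hp _ _)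
    rw [Finset.mul_sum]
    refine Finset.sum_le_sum fun ρ _ => ?_
    set Q := (T S p)^[m] (mem z) with hQ
    have h1 : 0 ≤ ((T S p)^[m] (vi S ρ z)) B := iter_nonneg hp (fun C => vi_nonneg _ _ _) _ _
    have h2 : 0 ≤ ((T S p)^[m] (vi S ρ ((S.π ρ).symm z))) B :=
      iter_nonneg hp (fun C => vi_nonneg _ _ _) _ _
    have h3 : ((T S p)^[m] (vi S ρ z)) B ≤ Q B - Q (Dn S ρ B) := (h V I S p hp m ρ z B).2
    have h4 : ((T S p)^[m] (vi S ρ ((S.π ρ).symm z))) B ^ 2 ≤ (Q (Up S ρ B) - Q B) ^ 2 := by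
      by_cases hx : S.act ρ ((S.π ρ).symm z)
      · have h5 := (h V I S p hp m ρ ((S.π ρ).symm z) B).1 hx
        rw [Equiv.apply_symm_apply] at h5
        exact pow_le_pow_left₀ h2 h5 2
      · have h6 : vi S ρ ((S.π ρ).symm z) = fun _ => (0 : ℝ) := by
          funext C
          have : ¬ Vi S C ρ ((S.π ρ).symm z) := fun h => hx h.1
          simp [vi, this]
        rw [h6, iter_const]
        have := sq_nonneg (Q (Up S ρ B) - Q B)
        simpa using this
    have h5 : ((T S p)^[m] (vi S ρ z)) B ^ 2 ≤ (Q (Dn S ρ B) - Q B) ^ 2 := by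
      have := pow_le_pow_left₀ h1 h3 2
      nlinarith
    have h6 := hp.1 ρ
    have h7 := mul_le_mul_of_nonneg_left (add_le_add h5 h4) (by linarith : 0 ≤ p ρ / 4)
    linarith
  set g : ℕ → ℝ := fun k => ((T S p)^[k] (fun B => ((T S p)^[N + 1 - k] (mem z)) B ^ 2)) A with hg
  have hstep : ∀ k ∈ Finset.range (N + 1), sg / 4 ≤ g (k + 1) - g k := by
    intro k hk
    have hk' : k ≤ N := Nat.lt_succ_iff.1 (Finset.mem_range.1 hk)
    have e1 : N + 1 - (k + 1) = N - k := by omega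
    have e2 : N + 1 - k = (N - k) + 1 := by omega
    have e3 : g (k + 1) = ((T S p)^[k] (fun B => T S p (fun C =>
        ((T S p)^[N - k] (mem z)) C ^ 2) B)) A := by
      simp only [hg]
      rw [e1, Function.iterate_succ_apply]
    have e4 : g k = ((T S p)^[k] (fun B => (T S p ((T S p)^[N - k] (mem z)) B) ^ 2)) A := by
      simp only [hg]
      rw [e2]
      have e : (fun B => ((T S p)^[N - k + 1] (mem z)) B ^ 2) =
          fun B => (T S p ((T S p)^[N - k] (mem z)) B) ^ 2 := by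
        funext B
        rw [iter_succ']
      rw [e]
    rw [e3, e4, ← iter_sub]
    refine le_trans ?_ (iter_mono hp (hV (N - k)) k A)
    rw [iter_sum]
    have e5 : sg / 4 = ∑ ρ, p ρ / 4 * ((((T S p)^[N] (vi S ρ z)) A) ^ 2 +
        (((T S p)^[N] (vi S ρ ((S.π ρ).symm z))) A) ^ 2) := by
      rw [hsg, Finset.sum_div]
      exact Finset.sum_congr rfl fun ρ _ => by ring
    rw [e5]
    refine Finset.sum_le_sum fun ρ _ => ?_
    rw [iter_mul, iter_add]
    refine mul_le_mul_of_nonneg_left (add_le_add ?_ ?_) (by linarith [hp.1 ρ])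
    · have := iter_sq (S := S) hp ((T S p)^[N - k] (vi S ρ z)) k A
      rw [iter_comp, Nat.add_sub_cancel' hk'] at this
      exact this
    · have := iter_sq (S := S) hp ((T S p)^[N - k] (vi S ρ ((S.π ρ).symm z))) k A
      rw [iter_comp, Nat.add_sub_cancel' hk'] at this
      exact this
  have hsum := Finset.sum_le_sum hstep
  rw [Finset.sum_range_sub, Finset.sum_const, Finset.card_range, nsmul_eq_mul] at hsum
  have h0 : 0 ≤ g 0 := iter_nonneg hp (fun B => sq_nonneg _) 0 A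
  have h1 : g (N + 1) ≤ 1 := by
    refine iter_le_const hp (fun B => ?_) (N + 1) A
    have e : ((T S p)^[N + 1 - (N + 1)] (mem z)) B = mem z B := by simp
    rw [e]
    have := mem_nonneg z B
    have := mem_le_one z B
    nlinarith
  have hN : (0 : ℝ) < (N : ℝ) + 1 := by positivity
  rw [le_div_iff₀ hN]
  push_cast at hsum
  nlinarith

end Pool.Agent.Q90.HG
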