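import Pool.Agent.Q90.HG.Sens
import Pool.Agent.Q90.HG.Flux
import Pool.Agent.Q90.HG.Vec
import Pool.Agent.Q90.HG.Mov
import Pool.Agent.Q90.HG.Cov
import Pool.Agent.Q90.HG.Sup
import Pool.Agent.Q90.HG.Long
import Pool.Agent.Q90.HG.Stage
import Pool.Agent.Q90.HG.Own
import Pool.Agent.Q90.HG.Dist
import Pool.Agent.Q90.HG.Tr

set_option autoImplicit false

/-!
Project HG: assembly.
-/

namespace Pool.Agent.Q90.HG

theorem mov_all : S_mov := t_mov t_flux (t_vec t_sens)

theorem super_all : S_super := t_super t_cov

theorem long_all : S_long := t_long mov_all super_all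

theorem stage_all : S_stage := t_stage mov_all super_all long_all

theorem dist_all : S_dist := t_dist t_rel t_own t_cnt stage_all

theorem fin_all : S_fin := t_fin dist_all t_tr

end Pool.Agent.Q90.HG
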