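import Pool.Agent.Q90.HG.Stm

set_option autoImplicit false

/-!
Project HG (row MP_21aa3b_co): the grid as a system of commuting partial shifts, the final
definitions, and the statements of the last lemmas.
-/

namespace Pool.Agent.Q90.HG

/-- Points of the hypergrid; the coordinates are `0, ..., n - 1`. -/
abbrev Pt (n d : ℕ) := Fin d → Fin n

/-- The hypergrid with the types `(i, a)`, the shift by `a` in direction `i`. As a permutation the
shift is taken modulo `n`; it is active when there is no wrap around. -/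
def gs (n d : ℕ) [NeZero n] : Sys (Pt n d) (Fin d × Fin n) where
  π ρ :=
    { toFun := fun x => Function.update x ρ.1 (x ρ.1 + ρ.2)
      invFun := fun x => Function.update x ρ.1 (x ρ.1 - ρ.2)
      left_inv := fun x => by simp
      right_inv := fun x => by simp }
  act ρ x := (x ρ.1 : ℕ) + (ρ.2 : ℕ) < n
  comm ρ τ x := by
    simp only [Equiv.coe_fn_mk]
    by_cases h : τ.1 = ρ.1
    · rw [h]
      simp only [Function.update_self, Function.update_idem]
      rw [add_right_comm]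
    · rw [Function.update_of_ne h, Function.update_of_ne (fun h' => h h'.symm),
        Function.update_comm h]
  swap ρ τ x h1 h2 := by
    simp only [Equiv.coe_fn_mk] at h2 ⊢
    by_cases h : τ.1 = ρ.1
    · rw [h] at h2 ⊢
      rw [Function.update_self] at h2
      have h3 : ((x ρ.1 + ρ.2 : Fin n) : ℕ) = (x ρ.1 : ℕ) + (ρ.2 : ℕ) := Fin.val_add_eq_of_add_lt h1
      rw [h3] at h2
      have h4 : (x ρ.1 : ℕ) + (τ.2 : ℕ) < n := by omega
      refine ⟨h4, ?_⟩
      rw [Function.update_self]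
      have h5 : ((x ρ.1 + τ.2 : Fin n) : ℕ) = (x ρ.1 : ℕ) + (τ.2 : ℕ) := Fin.val_add_eq_of_add_lt h4
      rw [h5]; omega
    · rw [Function.update_of_ne h] at h2
      refine ⟨h2, ?_⟩
      rw [Function.update_of_ne (fun h' => h h'.symm)]
      exact h1

/-- The sets without violated edges of length at least `L` in a coordinate direction. -/
def ML (n d : ℕ) [NeZero n] (L : ℕ) : Set (Set (Pt n d)) :=
  {A | ∀ (i : Fin d) (a : Fin n), L ≤ (a : ℕ) → Rel (gs n d) (i, a) A A}

/-- HG-OWN. A long step kills the violated edges of its own type. -/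
def S_own : Prop := ∀ (n d : ℕ) [NeZero n] (L : ℕ), ∀ A ∈ ML n d L, ∀ τ : Fin d × Fin n,
  L ≤ 2 * (τ.2 : ℕ) → ∀ P, Vi (gs n d) A τ P → K1 (gs n d) A τ τ P ∧ K2 (gs n d) A τ τ P

open Classical in
/-- HG-CNT. Many steps kill a given long violated edge. -/
def S_cnt : Prop := ∀ (n d : ℕ) [NeZero n] (L m : ℕ), 1 ≤ m → 4 * m ≤ L + 3 → 2 * m ≤ L →
  ∀ A ∈ ML n d L, ∀ ρ : Fin d × Fin n, L ≤ (ρ.2 : ℕ) + m → (ρ.2 : ℕ) < L →
  ∀ P, Vi (gs n d) A ρ P →
  (L : ℝ) / 4 ≤ ∑ τ ∈ Finset.univ.filter (fun τ : Fin d × Fin n => m ≤ (τ.2 : ℕ) ∧ (τ.2 : ℕ) < L),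
    ((if K1 (gs n d) A τ ρ P then (1 : ℝ) else 0) + (if K2 (gs n d) A τ ρ P then (1 : ℝ) else 0))

/-- The weights `1 / a`. -/
noncomputable def wt (n d : ℕ) (ρ : Fin d × Fin n) : ℝ := 1 / ((ρ.2 : ℕ) : ℝ)

/-- HG-DIST. The isoperimetric inequality for sets. -/
def S_dist : Prop := ∀ (n d : ℕ) [NeZero n], 2 ≤ n → ∀ A : Set (Pt n d),
  ∃ B : Set (Pt n d), IsUpperSet B ∧
    sd A B ≤ 4 * Real.log n * (6 * Real.sqrt (8 * Real.log n + 1) + 16) * Phi (gs n d) (wt n d) A

/-! ### The definitions of the problem -/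

/-- The pair `x ≤ y` is violating. -/
def Viol {n d : ℕ} (f : Pt n d → Bool) (x y : Pt n d) : Prop := x ≤ y ∧ f x = true ∧ f y = false

open Classical in
/-- The weighted influence of the direction `i` at `x`, for the colouring `χ` of the edges. -/
noncomputable def psi {n d : ℕ} (f : Pt n d → Bool) (χ : Sym2 (Pt n d) → Bool) (x : Pt n d)
    (i : Fin d) : ℝ :=
  ∑ t : Fin n, if (Viol f x (Function.update x i t) ∨ Viol f (Function.update x i t) x) ∧
    χ s(x, Function.update x i t) = f x then 1 / |((t : ℕ) : ℝ) - ((x i : ℕ) : ℝ)| else 0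

/-- The objective `T`. -/
noncomputable def TPsi {n d : ℕ} (f : Pt n d → Bool) (χ : Sym2 (Pt n d) → Bool) : ℝ :=
  (∑ x, Real.sqrt (∑ i, psi f χ x i)) / (n : ℝ) ^ d

open Classical in
/-- The distance to monotonicity. -/
noncomputable def eps {n d : ℕ} (f : Pt n d → Bool) : ℝ :=
  sInf {r : ℝ | ∃ g : Pt n d → Bool, Monotone g ∧
    ((Finset.univ.filter (fun x => f x ≠ g x)).card : ℝ) / (n : ℝ) ^ d = r}

/-- HG-TR. The colouring gives a split with cost at most the objective. -/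
def S_tr : Prop := ∀ (n d : ℕ) [NeZero n] (f : Pt n d → Bool) (χ : Sym2 (Pt n d) → Bool),
  Phi (gs n d) (wt n d) {x | f x = true} ≤ (n : ℝ) ^ d * TPsi f χ

/-- HG-FIN. The final result. -/
def S_fin : Prop := ∀ (n d : ℕ), 2 ≤ n → 1 ≤ d → ∀ (f : Pt n d → Bool)
  (χ : Sym2 (Pt n d) → Bool), eps f ≤ 200 * (Real.log n) ^ (3 / 2 : ℝ) * TPsi f χ

end Pool.Agent.Q90.HG
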