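import Pool.Agent.Q90.HG.Bas

set_option autoImplicit false

/-!
Project HG: steps preserve shift domination (`t_rel`); sensitivity (`t_sens`).
-/

namespace Pool.Agent.Q90.HG

theorem t_rel : S_rel := by
  intro V I S τ ρ A B
  refine ⟨fun h => ⟨?_, ?_⟩, fun h => ⟨?_, ?_⟩⟩
  · intro x hx hxA
    rcases hxA with hxA | ⟨w, hw, hwA, rfl⟩
    · exact Or.inl (h x hx hxA)
    · obtain ⟨h1, h2⟩ := S.swap τ ρ w hw hx
      exact Or.inr ⟨S.π ρ w, h2, h w h1 hwA, S.comm ρ τ w⟩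
  · intro x hx hxA
    refine ⟨h x hx hxA.1, fun hτ => ?_⟩
    obtain ⟨h1, h2⟩ := S.swap ρ τ x hx hτ
    rw [S.comm ρ τ x]
    exact h _ h2 (hxA.2 h1)
  · rintro y (hy | ⟨x, hx, hxA, rfl⟩)
    · exact Or.inl (h hy)
    · exact Or.inr ⟨x, hx, h hxA, rfl⟩
  · rintro x ⟨hx, hx2⟩
    exact ⟨h hx, fun hτ => h (hx2 hτ)⟩

variable {V I : Type} [Fintype I] {S : Sys V I} {p : I → ℝ}

/-- Comparison of three functionals at three sets. -/
theorem T_pair (hp : Pr p) {F G H : Set V → ℝ} {A₁ A₂ A₃ : Set V}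
    (h : F A₁ ≤ G A₂ - H A₃)
    (hu : ∀ τ, F (Up S τ A₁) ≤ G (Up S τ A₂) - H (Up S τ A₃))
    (hd : ∀ τ, F (Dn S τ A₁) ≤ G (Dn S τ A₂) - H (Dn S τ A₃)) :
    T S p F A₁ ≤ T S p G A₂ - T S p H A₃ := by
  have h0 : 0 ≤ 1 - ∑ τ, p τ := by linarith [hp.2]
  have h1 := mul_le_mul_of_nonneg_left h h0
  have h2 : ∑ τ, p τ / 2 * (F (Up S τ A₁) + F (Dn S τ A₁)) ≤
      ∑ τ, p τ / 2 * (G (Up S τ A₂) + G (Dn S τ A₂)) -
        ∑ τ, p τ / 2 * (H (Up S τ A₃) + H (Dn S τ A₃)) := by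
    rw [← Finset.sum_sub_distrib]
    refine Finset.sum_le_sum fun τ _ => ?_
    have h3 : 0 ≤ p τ / 2 := by linarith [hp.1 τ]
    have h4 := mul_le_mul_of_nonneg_left (add_le_add (hu τ) (hd τ)) h3
    linarith
  simp only [T]
  rw [mul_sub] at h1
  linarith

theorem iter_mono_set (hp : Pr p) (m : ℕ) (x : V) {A₁ A₂ : Set V} (h : A₁ ⊆ A₂) :
    ((T S p)^[m] (mem x)) A₁ ≤ ((T S p)^[m] (mem x)) A₂ := by
  induction m generalizing A₁ A₂ with
  | zero =>
    simp only [Function.iterate_zero, id]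
    unfold mem
    split_ifs with h1 h2
    · exact le_refl _
    · exact absurd (h h1) h2
    · norm_num
    · exact le_refl _
  | succ m ih =>
    rw [iter_succ', iter_succ']
    have h1 := T_pair (S := S) hp (F := fun _ => (0 : ℝ)) (G := (T S p)^[m] (mem x))
      (H := (T S p)^[m] (mem x)) (A₁ := A₁) (A₂ := A₂) (A₃ := A₁)
      (sub_nonneg.2 (ih h))
      (fun τ => sub_nonneg.2 (ih ((t_rel V I S τ τ A₁ A₂).2 h).1))
      (fun τ => sub_nonneg.2 (ih ((t_rel V I S τ τ A₁ A₂).2 h).2))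
    rw [T_const] at h1
    linarith

theorem pair_sens (hp : Pr p) (m : ℕ) (ρ : I) (x : V) (hx : S.act ρ x) {A₁ A₂ : Set V}
    (h : A₁ ⊆ A₂) (hr : Rel S ρ A₁ A₂) :
    ((T S p)^[m] (vi S ρ x)) A₁ ≤
      ((T S p)^[m] (mem (S.π ρ x))) A₂ - ((T S p)^[m] (mem (S.π ρ x))) A₁ ∧
    ((T S p)^[m] (vi S ρ x)) A₂ ≤ ((T S p)^[m] (mem x)) A₂ - ((T S p)^[m] (mem x)) A₁ := by
  induction m generalizing A₁ A₂ with
  | zero =>
    simp only [Function.iterate_zero, id]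
    constructor
    · by_cases hv : Vi S A₁ ρ x
      · have h1 : S.π ρ x ∈ A₂ := hr x hx hv.2.1
        have h2 : S.π ρ x ∉ A₁ := hv.2.2
        simp [vi, mem, hv, h1, h2]
      · by_cases h1 : S.π ρ x ∈ A₁
        · simp [vi, mem, hv, h1, h h1]
        · simp only [vi, mem, if_neg hv, if_neg h1]
          split_ifs <;> norm_num
    · by_cases hv : Vi S A₂ ρ x
      · have h1 : x ∈ A₂ := hv.2.1
        have h2 : x ∉ A₁ := fun h' => hv.2.2 (hr x hx h')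
        simp [vi, mem, hv, h1, h2]
      · by_cases h1 : x ∈ A₁
        · simp [vi, mem, hv, h1, h h1]
        · simp only [vi, mem, if_neg hv, if_neg h1]
          split_ifs <;> norm_num
  | succ m ih =>
    rw [iter_succ', iter_succ', iter_succ', iter_succ', iter_succ', iter_succ']
    constructor
    · refine T_pair hp (ih h hr).1 (fun τ => ?_) (fun τ => ?_)
      · exact (ih ((t_rel V I S τ ρ A₁ A₂).2 h).1 ((t_rel V I S τ ρ A₁ A₂).1 hr).1).1
      · exact (ih ((t_rel V I S τ ρ A₁ A₂).2 h).2 ((t_rel V I S τ ρ A₁ A₂).1 hr).2).1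
    · refine T_pair hp (ih h hr).2 (fun τ => ?_) (fun τ => ?_)
      · exact (ih ((t_rel V I S τ ρ A₁ A₂).2 h).1 ((t_rel V I S τ ρ A₁ A₂).1 hr).1).2
      · exact (ih ((t_rel V I S τ ρ A₁ A₂).2 h).2 ((t_rel V I S τ ρ A₁ A₂).1 hr).2).2

theorem t_sens : S_sens := by
  intro V I _ S p hp m ρ x A
  have hd : Dn S ρ A ⊆ A := fun y hy => hy.1
  constructor
  · intro hx
    exact (pair_sens hp m ρ x hx (fun y hy => Or.inl hy)
      (fun y hy hyA => Or.inr ⟨y, hy, hyA, rfl⟩)).1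
  · by_cases hx : S.act ρ x
    · exact (pair_sens hp m ρ x hx hd (fun y hy hyA => hyA.2 hy)).2
    · have h1 : vi S ρ x = fun _ => (0 : ℝ) := by
        funext B
        have : ¬ Vi S B ρ x := fun h => hx h.1
        simp [vi, this]
      rw [h1, iter_const]
      exact sub_nonneg.2 (iter_mono_set hp m x hd)

end Pool.Agent.Q90.HG
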