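import Mathlib

set_option autoImplicit false

/-!
Project HG (row MP_21aa3b_co): colourful directed Talagrand inequality for the weighted influence
on hypergrids. Definitions and lemma statements. Only Mathlib is imported.

Idea of the proof. A set `A` of vertices of a finite system of commuting partial shifts evolves by
random steps: a type `τ` and a sign are drawn at random, and `A` is replaced by `Up τ A` (add the
upper ends of the violated edges of type `τ`) or by `Dn τ A` (remove the lower ends). `T S p` is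
the one step operator on functionals. The expected movement is controlled by the cost of a split
of the violated edges (`S_mov`), and the minimal cost `Phi` is a supermartingale (`S_super`), with
a gain on the long edges.
-/

namespace Pool.Agent.Q90.HG

/-- A system of commuting partial shifts. The edges of type `τ` are `x → π τ x` with `act τ x`. -/
structure Sys (V I : Type) where
  π : I → Equiv.Perm V
  act : I → V → Prop
  comm : ∀ (ρ τ : I) (x : V), π τ (π ρ x) = π ρ (π τ x)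
  swap : ∀ (ρ τ : I) (x : V), act ρ x → act τ (π ρ x) → act τ x ∧ act ρ (π τ x)

variable {V I : Type}

/-- The edge `x → π τ x` of type `τ` is violated by `A`. -/
def Vi (S : Sys V I) (A : Set V) (τ : I) (x : V) : Prop := S.act τ x ∧ x ∈ A ∧ S.π τ x ∉ A

/-- Add the upper ends of the violated edges of type `τ`. -/
def Up (S : Sys V I) (τ : I) (A : Set V) : Set V :=
  {y | y ∈ A ∨ ∃ x, S.act τ x ∧ x ∈ A ∧ S.π τ x = y}

/-- Remove the lower ends of the violated edges of type `τ`. -/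
def Dn (S : Sys V I) (τ : I) (A : Set V) : Set V :=
  {x | x ∈ A ∧ (S.act τ x → S.π τ x ∈ A)}

open Classical in
/-- Indicator of membership, as a functional of the set. -/
noncomputable def mem (x : V) (A : Set V) : ℝ := if x ∈ A then 1 else 0

open Classical in
/-- Indicator of a violated edge, as a functional of the set. -/
noncomputable def vi (S : Sys V I) (τ : I) (x : V) (A : Set V) : ℝ := if Vi S A τ x then 1 else 0

/-- One step of the random flow, acting on functionals: type `τ` and each sign with probability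
`p τ / 2`, no step with the remaining probability. -/
noncomputable def T [Fintype I] (S : Sys V I) (p : I → ℝ) (F : Set V → ℝ) (A : Set V) : ℝ :=
  (1 - ∑ τ, p τ) * F A + ∑ τ, p τ / 2 * (F (Up S τ A) + F (Dn S τ A))

/-- Nonnegative weights with sum at most one half. -/
def Pr [Fintype I] (p : I → ℝ) : Prop := (∀ τ, 0 ≤ p τ) ∧ ∑ τ, p τ ≤ 1 / 2

/-- A split of the violated edges of `A`: each violated edge is charged to its two ends. -/
def Spl (S : Sys V I) (A : Set V) (v : I → V → ℝ) : Prop :=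
  (∀ ρ x, 0 ≤ v ρ x) ∧ ∀ ρ x, Vi S A ρ x → 1 ≤ v ρ x + v ρ (S.π ρ x)

/-- Cost of a split, with weights `c`. -/
noncomputable def cost [Fintype V] [Fintype I] (c : I → ℝ) (v : I → V → ℝ) : ℝ :=
  ∑ x, Real.sqrt (∑ ρ, c ρ * v ρ x ^ 2)

/-- Least cost of a split of `A`. -/
noncomputable def Phi [Fintype V] [Fintype I] (S : Sys V I) (c : I → ℝ) (A : Set V) : ℝ :=
  sInf {r : ℝ | ∃ v, Spl S A v ∧ cost c v = r}

open Classical in
/-- Size of the symmetric difference. -/
noncomputable def sd [Fintype V] (A B : Set V) : ℝ := ∑ x, |mem x A - mem x B|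

/-- Shift domination along the type `ρ`. -/
def Rel (S : Sys V I) (ρ : I) (A B : Set V) : Prop := ∀ x, S.act ρ x → x ∈ A → S.π ρ x ∈ B

/-- The edge of type `ρ` at `P` is not needed for the upper element of a pair in a step `τ`. -/
def K1 (S : Sys V I) (A : Set V) (τ ρ : I) (P : V) : Prop :=
  ¬ Vi S (Up S τ A) ρ P ∧ ∀ w, S.act τ w → S.π τ w = P → ¬ Vi S (Dn S τ A) ρ w

/-- The edge of type `ρ` at `P` is not needed for the lower element of a pair in a step `τ`. -/
def K2 (S : Sys V I) (A : Set V) (τ ρ : I) (P : V) : Prop :=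
  ¬ Vi S (Dn S τ A) ρ P ∧ (S.act τ P → ¬ Vi S (Up S τ A) ρ (S.π τ P))

open Classical in
/-- The lower end of the edge of type `ρ` to which the share of `x` belongs: `x` itself if
`x ∈ A`, the predecessor if `x ∉ A`. -/
noncomputable def bs (S : Sys V I) (A : Set V) (ρ : I) (x : V) : V :=
  if x ∈ A then x else (S.π ρ).symm x

/-- `C` is closed under all steps. -/
def Cl (S : Sys V I) (C : Set (Set V)) : Prop :=
  ∀ A ∈ C, ∀ τ, Up S τ A ∈ C ∧ Dn S τ A ∈ C

/-! ### The general lemmas -/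

/-- HG-REL. Steps preserve shift domination and inclusion. -/
def S_rel : Prop := ∀ (V I : Type) (S : Sys V I) (τ ρ : I) (A B : Set V),
  (Rel S ρ A B → Rel S ρ (Up S τ A) (Up S τ B) ∧ Rel S ρ (Dn S τ A) (Dn S τ B)) ∧
  (A ⊆ B → Up S τ A ⊆ Up S τ B ∧ Dn S τ A ⊆ Dn S τ B)

/-- HG-FLUX. The drift of a linear functional. -/
def S_flux : Prop := ∀ (V I : Type) [Fintype V] [Fintype I] (S : Sys V I) (p : I → ℝ)
  (ψ : V → ℝ) (A : Set V),
  T S p (fun B => ∑ x, ψ x * mem x B) A =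
    ∑ x, ψ x * mem x A + ∑ τ, p τ / 2 * ∑ x, vi S τ x A * (ψ (S.π τ x) - ψ x)

/-- HG-SENS. An additional step at the start is at least as visible at the end as a violated
edge. -/
def S_sens : Prop := ∀ (V I : Type) [Fintype I] (S : Sys V I) (p : I → ℝ), Pr p →
  ∀ (m : ℕ) (ρ : I) (x : V) (A : Set V),
  (S.act ρ x → ((T S p)^[m] (vi S ρ x)) A ≤
    ((T S p)^[m] (mem (S.π ρ x))) (Up S ρ A) - ((T S p)^[m] (mem (S.π ρ x))) A) ∧
  ((T S p)^[m] (vi S ρ x)) A ≤
    ((T S p)^[m] (mem x)) A - ((T S p)^[m] (mem x)) (Dn S ρ A)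

/-- HG-VEC. Bound for the vector of the violation probabilities at a vertex. -/
def S_vec : Prop := ∀ (V I : Type) [Fintype I] (S : Sys V I) (p : I → ℝ), Pr p →
  ∀ (N : ℕ) (z : V) (A : Set V),
  ∑ ρ, p ρ * ((((T S p)^[N] (vi S ρ z)) A) ^ 2 +
    (((T S p)^[N] (vi S ρ ((S.π ρ).symm z))) A) ^ 2) ≤ 4 / ((N : ℝ) + 1)

/-- HG-MOV. Expected movement in `N` steps. -/
def S_mov : Prop := ∀ (V I : Type) [Fintype V] [Fintype I] (S : Sys V I) (p : I → ℝ), Pr p →
  ∀ (N : ℕ) (A : Set V) (v : I → V → ℝ), Spl S A v →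
  ((T S p)^[N] (sd A)) A ≤ 6 * Real.sqrt N * cost p v

open Classical in
/-- HG-COV. Transport of a split through one step, with the unneeded shares dropped. -/
def S_cov : Prop := ∀ (V I : Type) [Fintype V] [Fintype I] (S : Sys V I) (c : I → ℝ),
  (∀ ρ, 0 ≤ c ρ) → ∀ (A : Set V) (v : I → V → ℝ), Spl S A v → ∀ τ : I,
  Phi S c (Up S τ A) + Phi S c (Dn S τ A) ≤
    cost c (fun ρ x => if K1 S A τ ρ (bs S A ρ x) then 0 else v ρ x) +
    cost c (fun ρ x => if K2 S A τ ρ (bs S A ρ x) then 0 else v ρ x)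

open Classical in
/-- HG-SUP. The least cost is a supermartingale, with a gain on the edges which are dropped. -/
def S_super : Prop := ∀ (V I : Type) [Fintype V] [Fintype I] (S : Sys V I) (p : I → ℝ), Pr p →
  ∀ (c c' : I → ℝ), (∀ ρ, 0 ≤ c ρ) → (∀ ρ, 0 ≤ c' ρ) → ∀ (A : Set V),
  (∀ ρ P, Vi S A ρ P → c' ρ * (1 - ∑ τ, p τ / 2 * ((if K1 S A τ ρ P then (1 : ℝ) else 0) +
    (if K2 S A τ ρ P then (1 : ℝ) else 0))) ≤ c ρ) →
  T S p (Phi S c') A ≤ Phi S c A

open Classical in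
/-- HG-LONG. Cleaning of the violated edges with types in `J`, when a step kills its own type. -/
def S_long : Prop := ∀ (V I : Type) [Fintype V] [Fintype I] (S : Sys V I) (J : Finset I)
  (C : Set (Set V)), Cl S C →
  (∀ A ∈ C, ∀ τ ∈ J, ∀ P, Vi S A τ P → K1 S A τ τ P ∧ K2 S A τ τ P) →
  ∀ (w : I → ℝ), (∀ ρ, 0 ≤ w ρ) → ∀ (G : Set V → ℝ), (∀ A, 0 ≤ G A) →
  (∀ A, G A ≤ Fintype.card V) → (∀ A B, G A ≤ sd A B + G B) → ∀ (b : ℝ), 0 ≤ b →
  (∀ A ∈ C, (∀ ρ ∈ J, ∀ P, ¬ Vi S A ρ P) → G A ≤ b * Phi S w A) →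
  ∀ A ∈ C, G A ≤ b * Phi S w A + 16 * Phi S (fun ρ => if ρ ∈ J then 1 else 0) A

open Classical in
/-- HG-STAGE. One stage of the scale by scale argument. -/
def S_stage : Prop := ∀ (V I : Type) [Fintype V] [Fintype I] (S : Sys V I) (J R : Finset I)
  (C : Set (Set V)), Cl S C →
  (∀ A ∈ C, ∀ τ ∈ J, ∀ P, Vi S A τ P → K1 S A τ τ P ∧ K2 S A τ τ P) →
  ∀ (w : I → ℝ), (∀ ρ, 0 ≤ w ρ) → ∀ (L : ℝ), 1 ≤ L → (∀ ρ ∈ R, 1 / L ≤ w ρ) → J ⊆ R →
  (∀ A ∈ C, ∀ ρ ∈ J, ∀ P, Vi S A ρ P →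
    L / 4 ≤ ∑ τ ∈ R, ((if K1 S A τ ρ P then (1 : ℝ) else 0) +
      (if K2 S A τ ρ P then (1 : ℝ) else 0))) →
  ∀ (G : Set V → ℝ), (∀ A, 0 ≤ G A) →
  (∀ A, G A ≤ Fintype.card V) → (∀ A B, G A ≤ sd A B + G B) → ∀ (b : ℝ), 0 ≤ b →
  (∀ A ∈ C, (∀ ρ ∈ J, ∀ P, ¬ Vi S A ρ P) → G A ≤ b * Phi S w A) →
  ∀ A ∈ C, G A ≤ (b + 6 * Real.sqrt (8 * Real.log L + 1) + 16) * Phi S w A

end Pool.Agent.Q90.HG
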